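import Pool.Agent.H891R2.Jones.TL

/-!
# Words in the Temperley–Lieb generators

All statements are made for a family of representations of the Temperley–Lieb algebra (indexed by
`j : ι`); the exponents that occur do not depend on `j`.
-/

set_option autoImplicit false

namespace Pool.Agent.TH561

open Pool.Agent.H891R2.Jones

section words

/-- the product of the generators of a word -/
def WP {R : Type*} [Monoid R] (e : ℕ → R) (L : List ℕ) : R := (L.map e).prod

@[simp] theorem WP_nil {R : Type*} [Monoid R] (e : ℕ → R) : WP e [] = 1 := rfl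

theorem WP_cons {R : Type*} [Monoid R] (e : ℕ → R) (i : ℕ) (L : List ℕ) :
    WP e (i :: L) = e i * WP e L := by simp [WP]

theorem WP_append {R : Type*} [Monoid R] (e : ℕ → R) (L L' : List ℕ) :
    WP e (L ++ L') = WP e L * WP e L' := by simp [WP]

theorem WP_flatten {R : Type*} [Monoid R] (e : ℕ → R) (l : List (List ℕ)) :
    WP e l.flatten = (l.map (WP e)).prod := by
  induction l with
  | nil => rfl
  | cons w l ih => rw [List.flatten_cons, WP_append, ih, List.map_cons, List.prod_cons]

variable {K : Type*} [Field K] {ι : Type*} {R : ι → Type*} [∀ j, Ring (R j)]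
  [∀ j, Algebra K (R j)] {M : ℕ} (d : ι → K) (e : ∀ j, ℕ → R j)

/-- words in the generators `e 0, …, e r` can be written with at most one `e r` -/
def PropC (r : ℕ) : Prop := ∀ L : List ℕ, (∀ i ∈ L, i ≤ r) →
  (∀ i ∈ L, i < r) ∨ ∃ (b : ℕ) (L1 L2 : List ℕ), (∀ i ∈ L1, i < r) ∧ (∀ i ∈ L2, i < r) ∧
    (L.length % 2 = (b + L1.length + L2.length + 1) % 2) ∧
    ∀ j, WP (e j) L = (d j) ^ b • (WP (e j) L1 * e j r * WP (e j) L2)

/-- compression by `e r` -/
def PropD (r : ℕ) : Prop := ∀ X : List ℕ, (∀ i ∈ X, i < r) →
  ∃ (a : ℕ) (X' : List ℕ), (∀ i ∈ X', i + 1 < r) ∧ (X.length + 1) % 2 = (a + X'.length) % 2 ∧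
    ∀ j, e j r * WP (e j) X * e j r = (d j) ^ a • (WP (e j) X' * e j r)

variable {d e}

theorem comm_WP (h : ∀ j, IsTL M (d j) (e j)) (r : ℕ) (hr : r + 1 < M) (L : List ℕ)
    (hL : ∀ i ∈ L, i + 1 < r) (j : ι) : Commute (e j r) (WP (e j) L) := by
  induction L with
  | nil => exact Commute.one_right _
  | cons i L ih =>
    rw [WP_cons]
    refine Commute.mul_right ?_ (ih (fun k hk => hL k (List.mem_cons_of_mem _ hk)))
    have := hL i List.mem_cons_self
    exact ((h j).far i r hr (by omega)).symm

theorem propD_zero (h : ∀ j, IsTL M (d j) (e j)) (hr : 0 + 1 < M) : PropD d e 0 := by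
  intro X hX
  have hX0 : X = [] := by
    rcases X with _ | ⟨i, X⟩
    · rfl
    · exact absurd (hX i List.mem_cons_self) (by omega)
  subst hX0
  refine ⟨1, [], by simp, by simp, fun j => ?_⟩
  simp only [WP_nil, mul_one, one_mul, pow_one]
  exact (h j).sq 0 hr

theorem propD_succ (h : ∀ j, IsTL M (d j) (e j)) (r : ℕ) (hr : r + 1 + 1 < M)
    (hC : PropC d e r) : PropD d e (r + 1) := by
  intro X hX
  rcases hC X (fun i hi => by have := hX i hi; omega) with hX' | ⟨b, P, Q, hP, hQ, hlen, hE⟩
  · refine ⟨1, X, fun i hi => by have := hX' i hi; omega, by ring_nf, fun j => ?_⟩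
    have hc := comm_WP h (r+1) hr X (fun i hi => by have := hX' i hi; omega) j
    rw [hc.eq, mul_assoc, (h j).sq (r+1) hr, pow_one, mul_smul_comm]
  · refine ⟨b, P ++ Q, ?_, ?_, fun j => ?_⟩
    · intro i hi
      rcases List.mem_append.1 hi with hi | hi
      · have := hP i hi; omega
      · have := hQ i hi; omega
    · rw [List.length_append]; omega
    · have hcP := comm_WP h (r+1) hr P (fun i hi => by have := hP i hi; omega) j
      have hcQ := comm_WP h (r+1) hr Q (fun i hi => by have := hQ i hi; omega) j
      have hd := (h j).down r (by omega)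
      rw [hE j, WP_append, mul_smul_comm, smul_mul_assoc]
      congr 1
      calc e j (r+1) * (WP (e j) P * e j r * WP (e j) Q) * e j (r+1)
          = (e j (r+1) * WP (e j) P) * e j r * (WP (e j) Q * e j (r+1)) := by noncomm_ring
        _ = (WP (e j) P * e j (r+1)) * e j r * (e j (r+1) * WP (e j) Q) := by
            rw [hcP.eq, hcQ.eq]
        _ = WP (e j) P * (e j (r+1) * e j r * e j (r+1)) * WP (e j) Q := by noncomm_ring
        _ = WP (e j) P * e j (r+1) * WP (e j) Q := by rw [hd]
        _ = WP (e j) P * (e j (r+1) * WP (e j) Q) := by noncomm_ring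
        _ = WP (e j) P * (WP (e j) Q * e j (r+1)) := by rw [hcQ.eq]
        _ = _ := by noncomm_ring

theorem propC_of_D (r : ℕ) (hD : PropD d e r) : PropC d e r := by
  intro L
  induction L with
  | nil => intro _; left; simp
  | cons i L ih =>
    intro hL
    have hi := hL i List.mem_cons_self
    have ih' := ih (fun k hk => hL k (List.mem_cons_of_mem _ hk))
    rcases Nat.lt_or_eq_of_le hi with hi | hi
    · rcases ih' with h1 | ⟨b, L1, L2, h1, h2, h3, h4⟩
      · left
        intro k hk
        rcases List.mem_cons.1 hk with rfl | hk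
        · exact hi
        · exact h1 k hk
      · right
        refine ⟨b, i :: L1, L2, ?_, h2, ?_, fun j => ?_⟩
        · intro k hk
          rcases List.mem_cons.1 hk with rfl | hk
          · exact hi
          · exact h1 k hk
        · simp only [List.length_cons]; omega
        · rw [WP_cons, h4 j, WP_cons, mul_smul_comm]
          congr 1
          noncomm_ring
    · subst hi
      right
      rcases ih' with h1 | ⟨b, L1, L2, h1, h2, h3, h4⟩
      · refine ⟨0, [], L, by simp, h1, ?_, fun j => ?_⟩
        · simp only [List.length_cons, List.length_nil]; omega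
        · rw [WP_cons]; simp
      · obtain ⟨a, X', hX', hpar, hE⟩ := hD L1 h1
        refine ⟨b + a, X', L2, fun k hk => by have := hX' k hk; omega, h2, ?_, fun j => ?_⟩
        · simp only [List.length_cons]; omega
        · rw [WP_cons, h4 j, mul_smul_comm]
          have : e j i * (WP (e j) L1 * e j i * WP (e j) L2) =
              (e j i * WP (e j) L1 * e j i) * WP (e j) L2 := by noncomm_ring
          rw [this, hE j, smul_mul_assoc, smul_smul, pow_add]

theorem propD (h : ∀ j, IsTL M (d j) (e j)) : ∀ r, r + 1 < M → PropD d e r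
  | 0, hr => propD_zero h hr
  | (r+1), hr => propD_succ h r hr (propC_of_D r (propD h r (by omega)))

theorem propC (h : ∀ j, IsTL M (d j) (e j)) (r : ℕ) (hr : r + 1 < M) : PropC d e r :=
  propC_of_D r (propD h r hr)

/-- the number of essential and inessential curves of the closure of a word in the annulus -/
theorem annular (h : ∀ j, IsTL M (d j) (e j)) (hd : ∀ j, d j ≠ 0) (τ : ∀ j, R j →ₗ[K] K)
    (hcyc : ∀ j x y, τ j (x * y) = τ j (y * x))
    (hmk : ∀ j r L, r + 1 < M → (∀ i ∈ L, i < r) →
      d j * τ j (WP (e j) L * e j r) = τ j (WP (e j) L))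
    (h1 : ∀ j, τ j 1 = (d j) ^ M) :
    ∀ r, r ≤ M → ∀ L : List ℕ, (∀ i ∈ L, i + 1 < r) → ∃ s z : ℕ, s ≤ r ∧ s % 2 = r % 2 ∧
      (s = r → L = []) ∧ L.length % 2 = z % 2 ∧
      ∀ j, ∀ q, 1 ≤ q → τ j ((WP (e j) L) ^ q) = (d j) ^ (M - r + s + q * z) := by
  intro r
  induction r using Nat.strong_induction_on with
  | _ r ih =>
    intro hr L hL
    rcases Nat.eq_zero_or_pos r with hr0 | hr0
    · subst hr0
      have hL0 : L = [] := by
        rcases L with _ | ⟨i, L⟩
        · rfl
        · exact absurd (hL i List.mem_cons_self) (by omega)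
      subst hL0
      refine ⟨0, 0, le_rfl, rfl, fun _ => rfl, rfl, fun j q _ => ?_⟩
      simp [h1]
    · by_cases hL' : ∀ i ∈ L, i + 1 < r - 1
      · obtain ⟨s, z, h2, h3, h4, h5, h6⟩ := ih (r-1) (by omega) (by omega) L hL'
        refine ⟨s + 1, z, by omega, by omega, fun hs => h4 (by omega), h5, fun j q hq => ?_⟩
        rw [h6 j q hq]
        congr 1
        omega
      · push Not at hL'
        obtain ⟨i0, hi0, hi0'⟩ := hL'
        have hr2 : 2 ≤ r := by have := hL i0 hi0; omega
        obtain ⟨t, rfl⟩ : ∃ t, r = t + 2 := ⟨r - 2, by omega⟩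
        have ht : t + 1 < M := by omega
        rcases propC h t ht L (fun i hi => by have := hL i hi; omega) with hX | ⟨b, L1, L2, hL1, hL2, hlen, hE⟩
        · exact absurd (hX i0 hi0) (by omega)
        · obtain ⟨a, X', hX', hpar, hE'⟩ := propD h t ht (L2 ++ L1) (by
            intro i hi
            rcases List.mem_append.1 hi with hi | hi
            · exact hL2 i hi
            · exact hL1 i hi)
          obtain ⟨s, z, h2, h3, h4, h5, h6⟩ := ih t (by omega) (by omega) X'
            (fun i hi => by have := hX' i hi; omega)
          rw [List.length_append] at hpar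
          refine ⟨s, z + a + b, by omega, by omega, fun hs => by omega, by omega, fun j q hq => ?_⟩
          -- the computation
          have hcX : Commute (e j t) (WP (e j) X') := comm_WP h t ht X' hX' j
          have hstep : ∀ n : ℕ, e j t * (WP (e j) (L2 ++ L1) * e j t) ^ n =
              (d j) ^ (a * n) • ((WP (e j) X') ^ n * e j t) := by
            intro n
            induction n with
            | zero => simp
            | succ n ihn =>
              rw [pow_succ, ← mul_assoc, ihn, smul_mul_assoc]
              have : (WP (e j) X') ^ n * e j t * (WP (e j) (L2 ++ L1) * e j t) =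
                  (WP (e j) X') ^ n * (e j t * WP (e j) (L2 ++ L1) * e j t) := by noncomm_ring
              rw [this, hE' j, mul_smul_comm, smul_smul, ← pow_add, pow_succ, mul_assoc]
              congr 2
          have hcyc2 : τ j ((WP (e j) L1 * e j t * WP (e j) L2) ^ q) =
              τ j ((WP (e j) (L2 ++ L1) * e j t) ^ q) := by
            obtain ⟨q', rfl⟩ : ∃ q', q = q' + 1 := ⟨q - 1, by omega⟩
            have hx : ∀ n : ℕ, (WP (e j) L1 * e j t * WP (e j) L2) ^ (n+1) =
                (WP (e j) L1 * e j t) * (WP (e j) (L2 ++ L1) * e j t) ^ n * WP (e j) L2 := by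
              intro n
              induction n with
              | zero => simp
              | succ n ihn =>
                rw [pow_succ, ihn, pow_succ (WP (e j) (L2 ++ L1) * e j t) n, WP_append]
                noncomm_ring
            rw [hx, hcyc, ← mul_assoc, ← mul_assoc, ← WP_append, ← pow_succ']
          have hmain : d j * τ j ((WP (e j) (L2 ++ L1) * e j t) ^ q) =
              (d j) ^ (a * q) * τ j ((WP (e j) X') ^ q * e j t) := by
            obtain ⟨q', rfl⟩ : ∃ q', q = q' + 1 := ⟨q - 1, by omega⟩
            have hsq : d j • (WP (e j) (L2 ++ L1) * e j t) ^ (q'+1) =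
                (WP (e j) (L2 ++ L1) * e j t) ^ (q'+1) * e j t := by
              rw [pow_succ, mul_assoc, mul_assoc, (h j).sq t ht, mul_smul_comm, mul_smul_comm]
            rw [← smul_eq_mul, ← map_smul, hsq, hcyc, hstep, map_smul, smul_eq_mul]
          have hpow : ∀ n : ℕ, (WP (e j) X') ^ n = WP (e j) (List.replicate n X').flatten := by
            intro n
            rw [WP_flatten, List.map_replicate, List.prod_replicate]
          have hm := hmk j t (List.replicate q X').flatten ht (by
            intro i hi
            rw [List.mem_flatten] at hi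
            obtain ⟨l, hl, hi⟩ := hi
            rw [List.mem_replicate] at hl
            rw [hl.2] at hi
            have := hX' i hi
            omega)
          rw [← hpow, h6 j q hq] at hm
          -- combine
          rw [hE j, smul_pow, map_smul, smul_eq_mul, hcyc2]
          have hdj := hd j
          apply mul_left_cancel₀ (pow_ne_zero 2 hdj)
          calc (d j) ^ 2 * (((d j) ^ b) ^ q * τ j ((WP (e j) (L2 ++ L1) * e j t) ^ q))
              = ((d j) ^ b) ^ q * d j * (d j * τ j ((WP (e j) (L2 ++ L1) * e j t) ^ q)) := by ring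
            _ = ((d j) ^ b) ^ q * (d j) ^ (a * q) * (d j * τ j ((WP (e j) X') ^ q * e j t)) := by
                rw [hmain]; ring
            _ = (d j) ^ 2 * (d j) ^ (M - (t + 2) + s + q * (z + a + b)) := by
                rw [hm, ← pow_mul, ← pow_add, ← pow_add, ← pow_add]
                congr 1
                have : M - t = M - (t + 2) + 2 := by omega
                rw [this]
                ring

end words

end Pool.Agent.TH561
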