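import Pool.Agent.H891R2.Jones.Transfer
import Pool.Agent.TH561.PB.Words

/-!
# The matrices of the Temperley–Lieb generators and the Markov property of the trace
-/

set_option autoImplicit false

namespace Pool.Agent.TH561

open Pool.Agent.H891R2.Jones Finset

section mat

variable {m N : ℕ}

/-- the matrix of the `i`-th Temperley–Lieb generator -/
noncomputable def KK (m N : ℕ) (i : ℕ) : Matrix (Fin m → Fin N) (Fin m → Fin N) ℂ :=
  Matrix.of (ee m N ((Fin m → Fin N) → ℂ) i (fun x y => ind (x = y)))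

open Classical in
theorem KK_mul_apply (i : ℕ) (h : i + 1 < m) (Y : Matrix (Fin m → Fin N) (Fin m → Fin N) ℂ)
    (x y : Fin m → Fin N) :
    (KK m N i * Y) x y = if x ⟨i, Nat.lt_of_succ_lt h⟩ = x ⟨i+1, h⟩ then
      ∑ c, Y (upd x ⟨i, Nat.lt_of_succ_lt h⟩ ⟨i+1, h⟩ c) y else 0 := by
  rw [Matrix.mul_apply]
  have h1 : ∀ z, KK m N i x z = if x ⟨i, Nat.lt_of_succ_lt h⟩ = x ⟨i+1, h⟩ then
      ∑ c, ind (upd x ⟨i, Nat.lt_of_succ_lt h⟩ ⟨i+1, h⟩ c = z) else 0 := by
    intro z
    unfold KK ee
    rw [dif_pos h]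
    simp only [Matrix.of_apply]
    rw [EE_apply]
    split_ifs
    · rw [Finset.sum_apply]
    · rfl
  simp only [h1]
  split_ifs
  · simp only [Finset.sum_mul]
    rw [Finset.sum_comm]
    refine Finset.sum_congr rfl fun c _ => ?_
    rw [Finset.sum_eq_single (upd x ⟨i, Nat.lt_of_succ_lt h⟩ ⟨i+1, h⟩ c)]
    · rw [ind_pos rfl, one_mul]
    · intro z _ hz
      rw [ind_neg (Ne.symm hz), zero_mul]
    · intro hc
      exact absurd (Finset.mem_univ _) hc
  · simp

theorem ee_of (i : ℕ) (h : i + 1 < m) (g : (Fin m → Fin N) → ((Fin m → Fin N) → ℂ)) :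
    Matrix.of (ee m N ((Fin m → Fin N) → ℂ) i g) = KK m N i * Matrix.of g := by
  ext x y
  rw [KK_mul_apply i h]
  unfold ee
  rw [dif_pos h]
  simp only [Matrix.of_apply]
  rw [EE_apply]
  split_ifs
  · rw [Finset.sum_apply]
  · rfl

theorem delta_eq : Matrix.of (fun x y : Fin m → Fin N => ind (x = y)) = 1 := by
  ext x y
  rw [Matrix.of_apply, Matrix.one_apply]
  unfold ind
  split_ifs <;> rfl

theorem WP_of (L : List ℕ) (hL : ∀ i ∈ L, i + 1 < m) :
    Matrix.of (WP (ee m N ((Fin m → Fin N) → ℂ)) L (fun x y => ind (x = y))) = WP (KK m N) L := by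
  induction L with
  | nil => rw [WP_nil, WP_nil]; exact delta_eq
  | cons i L ih =>
    rw [WP_cons, WP_cons, Module.End.mul_apply, ee_of i (hL i List.mem_cons_self),
      ih (fun k hk => hL k (List.mem_cons_of_mem _ hk))]

theorem WP_transfer (L L' : List ℕ) (hL : ∀ i ∈ L, i + 1 < m) (hL' : ∀ i ∈ L', i + 1 < m) (c : ℂ)
    (h : WP (ee m N ((Fin m → Fin N) → ℂ)) L = c • WP (ee m N ((Fin m → Fin N) → ℂ)) L') :
    WP (KK m N) L = c • WP (KK m N) L' := by
  rw [← WP_of L hL, ← WP_of L' hL', h]
  rfl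

theorem isTL_KK (m N : ℕ) : IsTL m (N : ℂ) (KK m N) where
  sq i hi := by
    have h := (isTL_ee (W := (Fin m → Fin N) → ℂ) m N).sq i hi
    have := WP_transfer [i, i] [i] (N := N) (m := m) (by simpa using hi) (by simpa using hi) (N : ℂ) (by
      simpa [WP] using h)
    simpa [WP] using this
  up i hi := by
    have h := (isTL_ee (W := (Fin m → Fin N) → ℂ) m N).up i hi
    have := WP_transfer [i, i+1, i] [i] (N := N) (m := m) (by
      intro k hk; simp only [List.mem_cons, List.not_mem_nil, or_false] at hk; omega) (by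
      intro k hk; simp only [List.mem_cons, List.not_mem_nil, or_false] at hk; omega) 1 (by
      simpa [WP, mul_assoc] using h)
    simpa [WP, mul_assoc] using this
  down i hi := by
    have h := (isTL_ee (W := (Fin m → Fin N) → ℂ) m N).down i hi
    have := WP_transfer [i+1, i, i+1] [i+1] (N := N) (m := m) (by
      intro k hk; simp only [List.mem_cons, List.not_mem_nil, or_false] at hk; omega) (by
      intro k hk; simp only [List.mem_cons, List.not_mem_nil, or_false] at hk; omega) 1 (by
      simpa [WP, mul_assoc] using h)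
    simpa [WP, mul_assoc] using this
  far i j hj hij := by
    have h := (isTL_ee (W := (Fin m → Fin N) → ℂ) m N).far i j hj hij
    have := WP_transfer [i, j] [j, i] (N := N) (m := m) (by
      intro k hk; simp only [List.mem_cons, List.not_mem_nil, or_false] at hk; omega) (by
      intro k hk; simp only [List.mem_cons, List.not_mem_nil, or_false] at hk; omega) 1 (by
      simpa [WP] using h)
    simpa [WP] using this

/-- a word does not change the colours at the places which it does not touch -/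
theorem WP_diag (s : Fin m) (L : List ℕ) (hL : ∀ i ∈ L, i + 1 < (s : ℕ)) :
    ∀ x y : Fin m → Fin N, x s ≠ y s → WP (KK m N) L x y = 0 := by
  induction L with
  | nil =>
    intro x y hxy
    rw [WP_nil, Matrix.one_apply, if_neg (fun h => hxy (by rw [h]))]
  | cons i L ih =>
    intro x y hxy
    have hi := hL i List.mem_cons_self
    have him : i + 1 < m := hi.trans s.2
    rw [WP_cons, KK_mul_apply i him]
    split_ifs
    · apply Finset.sum_eq_zero
      intro c _
      apply ih (fun k hk => hL k (List.mem_cons_of_mem _ hk))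
      rw [upd_other]
      · exact hxy
      · intro h; rw [h] at hi; simp at hi
      · intro h; rw [h] at hi; simp at hi
    · rfl

/-- permutation of the colours at the place `s` -/
def permAt (s : Fin m) (σ : Equiv.Perm (Fin N)) : Equiv.Perm (Fin m → Fin N) :=
  Equiv.piCongrRight (fun j => if j = s then σ else Equiv.refl _)

theorem permAt_self (s : Fin m) (σ : Equiv.Perm (Fin N)) (x : Fin m → Fin N) :
    permAt s σ x s = σ (x s) := by simp [permAt]

theorem permAt_other (s : Fin m) (σ : Equiv.Perm (Fin N)) (x : Fin m → Fin N) {j : Fin m}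
    (h : j ≠ s) : permAt s σ x j = x j := by simp [permAt, h]

theorem WP_perm (s : Fin m) (σ : Equiv.Perm (Fin N)) (L : List ℕ) (hL : ∀ i ∈ L, i + 1 < (s : ℕ)) :
    ∀ x y : Fin m → Fin N, WP (KK m N) L (permAt s σ x) (permAt s σ y) = WP (KK m N) L x y := by
  induction L with
  | nil =>
    intro x y
    rw [WP_nil, Matrix.one_apply, Matrix.one_apply]
    simp only [(permAt s σ).injective.eq_iff]
  | cons i L ih =>
    intro x y
    have hi := hL i List.mem_cons_self
    have him : i + 1 < m := hi.trans s.2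
    have h1 : (⟨i, Nat.lt_of_succ_lt him⟩ : Fin m) ≠ s := by
      intro h; rw [← h] at hi; simp at hi
    have h2 : (⟨i+1, him⟩ : Fin m) ≠ s := by
      intro h; rw [← h] at hi; simp at hi
    rw [WP_cons, KK_mul_apply i him, KK_mul_apply i him, permAt_other s σ x h1,
      permAt_other s σ x h2]
    split_ifs
    · refine Finset.sum_congr rfl fun c _ => ?_
      rw [← ih (fun k hk => hL k (List.mem_cons_of_mem _ hk))
        (upd x ⟨i, Nat.lt_of_succ_lt him⟩ ⟨i+1, him⟩ c) y]
      have hx : upd (permAt s σ x) ⟨i, Nat.lt_of_succ_lt him⟩ ⟨i+1, him⟩ c =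
          permAt s σ (upd x ⟨i, Nat.lt_of_succ_lt him⟩ ⟨i+1, him⟩ c) := ?_
      · rw [hx]
      funext j
      by_cases hj : j = s
      · subst hj
        rw [permAt_self, upd_other _ _ h1.symm h2.symm, upd_other _ _ h1.symm h2.symm, permAt_self]
      · rw [permAt_other s σ _ hj]
        simp only [upd]
        split_ifs
        · rfl
        · rw [permAt_other s σ _ hj]
    · rfl

theorem sum_place (hN : N ≠ 0) (s r : Fin m) (hrs : r ≠ s) (G : (Fin m → Fin N) → ℂ)
    (hG : ∀ σ : Equiv.Perm (Fin N), ∀ x, G (permAt s σ x) = G x) :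
    (N : ℂ) * ∑ y, (if y r = y s then G y else 0) = ∑ y, G y := by
  have : NeZero N := ⟨hN⟩
  have h1 : ∀ y : Fin m → Fin N, G y = ∑ k : Fin N, if y s = y r + k then G y else 0 := by
    intro y
    rw [Finset.sum_eq_single (y s - y r)]
    · rw [if_pos]; simp
    · intro k _ hk
      rw [if_neg]
      intro h
      apply hk
      rw [h]; simp
    · intro h; exact absurd (Finset.mem_univ _) h
  have h2 : ∀ k : Fin N, ∑ y : Fin m → Fin N, (if y s = y r + k then G y else 0) =
      ∑ y : Fin m → Fin N, (if y r = y s then G y else 0) := by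
    intro k
    rw [← Equiv.sum_comp (permAt s (Equiv.addRight k))]
    refine Finset.sum_congr rfl fun y _ => ?_
    rw [permAt_self, permAt_other s _ y hrs, hG]
    have : ((Equiv.addRight k) (y s) = y r + k) ↔ (y r = y s) := by
      rw [Equiv.coe_addRight]
      constructor
      · intro h; exact (add_right_cancel h).symm
      · intro h; rw [h]
    simp only [this]
  rw [Finset.sum_congr rfl (fun y _ => h1 y), Finset.sum_comm, Finset.sum_congr rfl (fun k _ => h2 k),
    Finset.sum_const, Finset.card_univ, Fintype.card_fin, nsmul_eq_mul]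

theorem markov (hN : N ≠ 0) (r : ℕ) (L : List ℕ) (hr : r + 1 < m) (hL : ∀ i ∈ L, i < r) :
    (N : ℂ) * Matrix.trace (WP (KK m N) L * KK m N r) = Matrix.trace (WP (KK m N) L) := by
  rw [Matrix.trace_mul_comm]
  unfold Matrix.trace
  have hrs : (⟨r, Nat.lt_of_succ_lt hr⟩ : Fin m) ≠ ⟨r+1, hr⟩ := by
    intro h; simp at h
  rw [← sum_place hN ⟨r+1, hr⟩ ⟨r, Nat.lt_of_succ_lt hr⟩ hrs (fun y => (WP (KK m N) L).diag y)]
  · congr 1
    refine Finset.sum_congr rfl fun y _ => ?_
    rw [Matrix.diag_apply, KK_mul_apply r hr]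
    by_cases hy : y ⟨r, Nat.lt_of_succ_lt hr⟩ = y ⟨r+1, hr⟩
    · rw [if_pos hy, if_pos hy, Finset.sum_eq_single (y ⟨r+1, hr⟩)]
      · rw [Matrix.diag_apply]
        have hx : upd y ⟨r, Nat.lt_of_succ_lt hr⟩ ⟨r+1, hr⟩ (y ⟨r+1, hr⟩) = y := ?_
        · rw [hx]
        funext j
        simp only [upd]
        split_ifs with hj
        · rcases hj with rfl | rfl
          · exact hy.symm
          · rfl
        · rfl
      · intro c _ hc
        apply WP_diag ⟨r+1, hr⟩ L (fun i hi => by have := hL i hi; simp only; omega)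
        rw [upd_right]
        exact hc
      · intro h; exact absurd (Finset.mem_univ _) h
    · rw [if_neg hy, if_neg hy]
  · intro σ x
    rw [Matrix.diag_apply, Matrix.diag_apply]
    exact WP_perm ⟨r+1, hr⟩ σ L (fun i hi => by have := hL i hi; simp only; omega) x x

/-- the trace of the powers of a word: `s` essential and `z` inessential closed curves -/
theorem trace_pow (m : ℕ) (L : List ℕ) (hL : ∀ i ∈ L, i + 1 < m) :
    ∃ s z : ℕ, s ≤ m ∧ s % 2 = m % 2 ∧ (s = m → L = []) ∧ L.length % 2 = z % 2 ∧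
      ∀ N : ℕ, N ≠ 0 → ∀ q, 1 ≤ q → Matrix.trace ((WP (KK m N) L) ^ q) = (N : ℂ) ^ (s + q * z) := by
  obtain ⟨s, z, h1, h2, h3, h4, h5⟩ := annular (K := ℂ) (ι := ℕ)
    (R := fun j => Matrix (Fin m → Fin (j+1)) (Fin m → Fin (j+1)) ℂ) (M := m)
    (d := fun j => ((j + 1 : ℕ) : ℂ)) (e := fun j => KK m (j+1)) (fun j => isTL_KK m (j+1))
    (fun j => Nat.cast_ne_zero.2 (by omega)) (fun j => Matrix.traceLinearMap _ ℂ ℂ)
    (fun j x y => Matrix.trace_mul_comm x y)
    (fun j r L hr hL => markov (by omega) r L hr hL)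
    (fun j => by
      rw [Matrix.traceLinearMap_apply, Matrix.trace_one]
      simp) m le_rfl L hL
  refine ⟨s, z, h1, h2, h3, h4, fun N hN q hq => ?_⟩
  obtain ⟨j, rfl⟩ : ∃ j, N = j + 1 := ⟨N - 1, by omega⟩
  have := h5 j q hq
  rw [Nat.sub_self, zero_add] at this
  exact this

end mat

end Pool.Agent.TH561
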