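import Pool.Agent.TH561.PB.Words

/-!
# Words in the Temperley–Lieb generators together with full twists

As in `Words`, all statements are made for a family of representations of the Temperley–Lieb algebra;
here words in the generators `e k, …, e (M - 2)` are considered, and traces of products of words with
powers of the full twist.
-/

set_option autoImplicit false

namespace Pool.Agent.TH561

open Pool.Agent.H891R2.Jones

section words2

variable {K : Type*} [Field K] {ι : Type*} {R : ι → Type*} [∀ j, Ring (R j)]
  [∀ j, Algebra K (R j)] (M : ℕ) (d : ι → K) (e : ∀ j, ℕ → R j)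

/-- words in the generators `e k, …, e (M - 2)` can be written with at most one `e k` -/
def PropCr (k : ℕ) : Prop := ∀ L : List ℕ, (∀ i ∈ L, k ≤ i ∧ i + 1 < M) →
  (∀ i ∈ L, k < i) ∨ ∃ (b : ℕ) (L1 L2 : List ℕ), (∀ i ∈ L1, k < i ∧ i + 1 < M) ∧
    (∀ i ∈ L2, k < i ∧ i + 1 < M) ∧
    (L.length % 2 = (b + L1.length + L2.length + 1) % 2) ∧
    (b + L1.length + L2.length + 1 ≤ L.length) ∧
    ∀ j, WP (e j) L = (d j) ^ b • (WP (e j) L1 * e j k * WP (e j) L2)

/-- compression by `e k` -/
def PropDr (k : ℕ) : Prop := ∀ X : List ℕ, (∀ i ∈ X, k < i ∧ i + 1 < M) →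
  ∃ (a : ℕ) (X' : List ℕ), (∀ i ∈ X', k + 1 < i ∧ i + 1 < M) ∧
    (X.length + 1) % 2 = (a + X'.length) % 2 ∧ a + X'.length ≤ X.length + 1 ∧
    ∀ j, e j k * WP (e j) X * e j k = (d j) ^ a • (WP (e j) X' * e j k)

variable {M d e}

theorem comm_WPr (h : ∀ j, IsTL M (d j) (e j)) (k : ℕ) (L : List ℕ)
    (hL : ∀ i ∈ L, k + 1 < i ∧ i + 1 < M) (j : ι) : Commute (e j k) (WP (e j) L) := by
  induction L with
  | nil => exact Commute.one_right _
  | cons i L ih =>
    rw [WP_cons]
    refine Commute.mul_right ?_ (ih (fun k hk => hL k (List.mem_cons_of_mem _ hk)))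
    have := hL i List.mem_cons_self
    exact (h j).far k i this.2 (by omega)

theorem propDr_last (h : ∀ j, IsTL M (d j) (e j)) (k : ℕ) (hk : k + 2 = M) : PropDr M d e k := by
  intro X hX
  have hX0 : X = [] := by
    rcases X with _ | ⟨i, X⟩
    · rfl
    · have := hX i List.mem_cons_self
      omega
  subst hX0
  refine ⟨1, [], by simp, by simp, by simp, fun j => ?_⟩
  simp only [WP_nil, mul_one, one_mul, pow_one]
  exact (h j).sq k (by omega)

theorem propDr_step (h : ∀ j, IsTL M (d j) (e j)) (k : ℕ) (hk : k + 2 < M)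
    (hC : PropCr M d e (k + 1)) : PropDr M d e k := by
  intro X hX
  rcases hC X (fun i hi => by have := hX i hi; omega) with hX' | ⟨b, P, Q, hP, hQ, hlen, hle, hE⟩
  · refine ⟨1, X, fun i hi => ⟨hX' i hi, (hX i hi).2⟩, by ring_nf, by omega, fun j => ?_⟩
    have hc := comm_WPr h k X (fun i hi => ⟨hX' i hi, (hX i hi).2⟩) j
    rw [hc.eq, mul_assoc, (h j).sq k (by omega), pow_one, mul_smul_comm]
  · refine ⟨b, P ++ Q, ?_, ?_, ?_, fun j => ?_⟩
    · intro i hi
      rcases List.mem_append.1 hi with hi | hi
      · exact hP i hi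
      · exact hQ i hi
    · rw [List.length_append]; omega
    · rw [List.length_append]; omega
    · have hcP := comm_WPr h k P hP j
      have hcQ := comm_WPr h k Q hQ j
      have hu := (h j).up k hk
      rw [hE j, WP_append, mul_smul_comm, smul_mul_assoc]
      congr 1
      calc e j k * (WP (e j) P * e j (k+1) * WP (e j) Q) * e j k
          = (e j k * WP (e j) P) * e j (k+1) * (WP (e j) Q * e j k) := by noncomm_ring
        _ = (WP (e j) P * e j k) * e j (k+1) * (e j k * WP (e j) Q) := by
            rw [hcP.eq, hcQ.eq]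
        _ = WP (e j) P * (e j k * e j (k+1) * e j k) * WP (e j) Q := by noncomm_ring
        _ = WP (e j) P * e j k * WP (e j) Q := by rw [hu]
        _ = WP (e j) P * (e j k * WP (e j) Q) := by noncomm_ring
        _ = WP (e j) P * (WP (e j) Q * e j k) := by rw [hcQ.eq]
        _ = _ := by noncomm_ring

theorem propCr_of_D (k : ℕ) (hk : k + 1 < M) (hD : PropDr M d e k) : PropCr M d e k := by
  intro L
  induction L with
  | nil => intro _; left; simp
  | cons i L ih =>
    intro hL
    have hi := hL i List.mem_cons_self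
    have ih' := ih (fun k hk => hL k (List.mem_cons_of_mem _ hk))
    rcases Nat.lt_or_eq_of_le hi.1 with hi' | hi'
    · rcases ih' with h1 | ⟨b, L1, L2, h1, h2, h3, h3', h4⟩
      · left
        intro k hk
        rcases List.mem_cons.1 hk with rfl | hk
        · exact hi'
        · exact h1 k hk
      · right
        refine ⟨b, i :: L1, L2, ?_, h2, ?_, ?_, fun j => ?_⟩
        · intro k hk
          rcases List.mem_cons.1 hk with rfl | hk
          · exact ⟨hi', hi.2⟩
          · exact h1 k hk
        · simp only [List.length_cons]; omega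
        · simp only [List.length_cons]; omega
        · rw [WP_cons, h4 j, WP_cons, mul_smul_comm]
          congr 1
          noncomm_ring
    · subst hi'
      right
      rcases ih' with h1 | ⟨b, L1, L2, h1, h2, h3, h3', h4⟩
      · refine ⟨0, [], L, by simp, fun i hi => ⟨h1 i hi, (hL i (List.mem_cons_of_mem _ hi)).2⟩, ?_, ?_,
          fun j => ?_⟩
        · simp only [List.length_cons, List.length_nil]; omega
        · simp only [List.length_cons, List.length_nil]; omega
        · rw [WP_cons]; simp
      · obtain ⟨a, X', hX', hpar, hle, hE⟩ := hD L1 h1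
        refine ⟨b + a, X', L2, fun i hi => by have := hX' i hi; omega, h2, ?_, ?_, fun j => ?_⟩
        · simp only [List.length_cons]; omega
        · simp only [List.length_cons]; omega
        · rw [WP_cons, h4 j, mul_smul_comm]
          have : e j k * (WP (e j) L1 * e j k * WP (e j) L2) =
              (e j k * WP (e j) L1 * e j k) * WP (e j) L2 := by noncomm_ring
          rw [this, hE j, smul_mul_assoc, smul_smul, pow_add]

theorem propDr (h : ∀ j, IsTL M (d j) (e j)) : ∀ t k, k + t + 2 = M → PropDr M d e k
  | 0, k, hk => propDr_last h k (by omega)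
  | (t+1), k, hk => propDr_step h k (by omega)
      (propCr_of_D (k+1) (by omega) (propDr h t (k+1) (by omega)))

theorem propDr' (h : ∀ j, IsTL M (d j) (e j)) (k : ℕ) (hk : k + 1 < M) : PropDr M d e k :=
  propDr h (M - 2 - k) k (by omega)

theorem propCr (h : ∀ j, IsTL M (d j) (e j)) (k : ℕ) (hk : k + 1 < M) : PropCr M d e k :=
  propCr_of_D k hk (propDr' h k hk)

/-- moving a cup-cap along strands that commute with everything else -/
theorem slide {K R : Type*} [Field K] [Ring R] [Algebra K R] {M : ℕ} {d : K} {e : ℕ → R}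
    (h : IsTL M d e) (τ : R →ₗ[K] K) (hcyc : ∀ x y, τ (x * y) = τ (y * x)) (G : R) (i : ℕ)
    (hi : i + 2 < M) (h1 : Commute G (e i)) (h2 : Commute G (e (i+1))) :
    τ (G * e (i+1)) = τ (G * e i) := by
  have e1 : τ (G * e (i+1)) = d * τ (G * e (i+1) * e i) := by
    calc τ (G * e (i+1)) = τ (G * (e (i+1) * e i * e (i+1))) := by rw [h.down i hi]
      _ = τ ((G * e (i+1) * e i) * e (i+1)) := by congr 1; noncomm_ring
      _ = τ (e (i+1) * (G * e (i+1) * e i)) := hcyc _ _
      _ = τ ((e (i+1) * G) * e (i+1) * e i) := by congr 1; noncomm_ring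
      _ = τ ((G * e (i+1)) * e (i+1) * e i) := by rw [h2.eq]
      _ = τ (G * (e (i+1) * e (i+1)) * e i) := by congr 1; noncomm_ring
      _ = τ (d • (G * e (i+1) * e i)) := by
          rw [h.sq (i+1) (by omega), mul_smul_comm, smul_mul_assoc]
      _ = _ := by rw [map_smul, smul_eq_mul]
  have e2 : τ (G * e i) = d * τ (G * e (i+1) * e i) := by
    calc τ (G * e i) = τ (G * (e i * e (i+1) * e i)) := by rw [h.up i hi]
      _ = τ ((G * e i) * (e (i+1) * e i)) := by congr 1; noncomm_ring
      _ = τ ((e (i+1) * e i) * (G * e i)) := hcyc _ _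
      _ = τ (e (i+1) * (e i * G) * e i) := by congr 1; noncomm_ring
      _ = τ (e (i+1) * (G * e i) * e i) := by rw [h1.eq]
      _ = τ ((e (i+1) * G) * (e i * e i)) := by congr 1; noncomm_ring
      _ = τ (d • (G * e (i+1) * e i)) := by
          rw [h.sq i (by omega), ← h2.eq, mul_smul_comm]
      _ = _ := by rw [map_smul, smul_eq_mul]
  rw [e1, e2]

theorem slide_many {K R : Type*} [Field K] [Ring R] [Algebra K R] {M : ℕ} {d : K} {e : ℕ → R}
    (h : IsTL M d e) (τ : R →ₗ[K] K) (hcyc : ∀ x y, τ (x * y) = τ (y * x)) (G : R) (k : ℕ) :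
    ∀ t, k + t + 1 < M → (∀ i, k ≤ i → i ≤ k + t → Commute G (e i)) →
    τ (G * e (k+t)) = τ (G * e k)
  | 0, _, _ => rfl
  | (t+1), hM, hG => by
    rw [← add_assoc, slide h τ hcyc G (k+t) (by omega) (hG _ (by omega) (by omega))
      (hG _ (by omega) (by omega))]
    exact slide_many h τ hcyc G k t (by omega) (fun i h1 h2 => hG i h1 (by omega))

variable {A : ι → K}

/-- Traces of products of powers of a word and powers of a full twist: `s` essential and `z`
inessential closed curves. -/
theorem annularF (hA : ∀ j, A j ≠ 0) (hd' : ∀ j, d j = -(A j)^2 - (A j)⁻¹^2)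
    (h : ∀ j, IsTL M (d j) (e j)) (τ : ∀ j, R j →ₗ[K] K)
    (hcyc : ∀ j x y, τ j (x * y) = τ j (y * x)) (S : ∀ j, ℕ → Subalgebra K (R j))
    (hS : ∀ j k i, k < i → i + 1 < M → e j i ∈ S j k)
    (hmk : ∀ j k Y, k + 1 < M → Y ∈ S j k → d j * τ j (Y * e j k) = τ j Y) :
    ∀ n k, k + n = M → ∀ L : List ℕ, (∀ i ∈ L, k ≤ i ∧ i + 1 < M) →
      ∃ s z : ℕ, s ≤ n ∧ s % 2 = n % 2 ∧ (s = n → L = []) ∧ L.length % 2 = z % 2 ∧
      (s + z ≤ n + L.length ∧ (L = [] ∨ s + z + 2 ≤ n + L.length)) ∧
      ∀ j, ∀ q a, 1 ≤ q → (d j) ^ (n - s) *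
          τ j ((WP (e j) L) ^ q * (FF (sg (A j) (e j)) n k) ^ a) =
        (d j) ^ (q * z) * ((A j)⁻¹ ^ (3 * a * (n - s)) * τ j ((FF (sg (A j) (e j)) s (M - s)) ^ a)) := by
  intro n
  induction n using Nat.strong_induction_on with
  | _ n ih =>
    intro k hk L hL
    by_cases hL0 : L = []
    · subst hL0
      refine ⟨n, 0, le_rfl, rfl, fun _ => rfl, rfl, ⟨by simp, Or.inl rfl⟩, fun j q a _ => ?_⟩
      have : M - n = k := by omega
      rw [this]
      simp
    · -- the smallest letter
      obtain ⟨k0, hk0, hk0'⟩ : ∃ k0 ∈ L, ∀ i ∈ L, k0 ≤ i := by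
        classical
        have hne : L.toFinset.Nonempty := by
          rw [List.toFinset_nonempty_iff]; exact hL0
        refine ⟨L.toFinset.min' hne, ?_, fun i hi => ?_⟩
        · exact List.mem_toFinset.1 (Finset.min'_mem _ hne)
        · exact Finset.min'_le _ _ (List.mem_toFinset.2 hi)
      have hk0M := hL k0 hk0
      rcases propCr h k0 hk0M.2 L (fun i hi => ⟨hk0' i hi, (hL i hi).2⟩) with
        hX | ⟨b, L1, L2, hL1, hL2, hlen, hle, hE⟩
      · exact absurd (hX k0 hk0) (lt_irrefl _)
      obtain ⟨a', X', hX', hpar, hle', hE'⟩ := propDr' h k0 hk0M.2 (L2 ++ L1) (by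
        intro i hi
        rcases List.mem_append.1 hi with hi | hi
        · exact hL2 i hi
        · exact hL1 i hi)
      obtain ⟨n', rfl⟩ : ∃ n', n = n' + 2 := ⟨n - 2, by omega⟩
      obtain ⟨s, z, g1, g2, g3, g4, g5, g6⟩ := ih n' (by omega) (k+2) (by omega) X'
        (fun i hi => by have := hX' i hi; omega)
      rw [List.length_append] at hpar hle'
      refine ⟨s, z + a' + b, by omega, by omega, fun hs => by omega, by omega,
        ⟨by omega, Or.inr (by omega)⟩, fun j q a hq => ?_⟩
      · -- the computation
        set F := FF (sg (A j) (e j)) (n'+2) k with hF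
        set F' := FF (sg (A j) (e j)) n' (k+2) with hF'
        have hcF : ∀ i, k ≤ i → i + 1 < M → Commute (e j i) F := fun i h1 h2 =>
          FF_comm_e (hA j) (hd' j) (h j) (n'+2) k i (by omega) h1 (by omega)
        have hcFW : ∀ X : List ℕ, (∀ i ∈ X, k ≤ i ∧ i + 1 < M) → Commute (WP (e j) X) F := by
          intro X hX
          induction X with
          | nil => exact Commute.one_left _
          | cons i X ihX =>
            rw [WP_cons]
            exact (hcF i (hX i List.mem_cons_self).1 (hX i List.mem_cons_self).2).mul_left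
              (ihX (fun i hi => hX i (List.mem_cons_of_mem _ hi)))
        have hcX : Commute (e j k0) (WP (e j) X') := comm_WPr h k0 X' hX' j
        have hstep : ∀ n : ℕ, e j k0 * (WP (e j) (L2 ++ L1) * e j k0) ^ n =
            (d j) ^ (a' * n) • ((WP (e j) X') ^ n * e j k0) := by
          intro n
          induction n with
          | zero => simp
          | succ n ihn =>
            rw [pow_succ, ← mul_assoc, ihn, smul_mul_assoc]
            have : (WP (e j) X') ^ n * e j k0 * (WP (e j) (L2 ++ L1) * e j k0) =
                (WP (e j) X') ^ n * (e j k0 * WP (e j) (L2 ++ L1) * e j k0) := by noncomm_ring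
            rw [this, hE' j, mul_smul_comm, smul_smul, ← pow_add, pow_succ, mul_assoc]
            congr 2
        have hcyc2 : τ j ((WP (e j) L1 * e j k0 * WP (e j) L2) ^ q * F ^ a) =
            τ j ((WP (e j) (L2 ++ L1) * e j k0) ^ q * F ^ a) := by
          obtain ⟨q', rfl⟩ : ∃ q', q = q' + 1 := ⟨q - 1, by omega⟩
          have hx : ∀ n : ℕ, (WP (e j) L1 * e j k0 * WP (e j) L2) ^ (n+1) =
              (WP (e j) L1 * e j k0) * (WP (e j) (L2 ++ L1) * e j k0) ^ n * WP (e j) L2 := by
            intro n
            induction n with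
            | zero => simp
            | succ n ihn =>
              rw [pow_succ, ihn, pow_succ (WP (e j) (L2 ++ L1) * e j k0) n, WP_append]
              noncomm_ring
          have hc2 : Commute (WP (e j) L2) (F ^ a) :=
            (hcFW L2 (fun i hi => by have := hL2 i hi; omega)).pow_right a
          rw [hx, mul_assoc, hc2.eq, ← mul_assoc, hcyc, ← mul_assoc, ← mul_assoc, ← mul_assoc,
            ← WP_append, ← pow_succ']
        have hmain : d j * τ j ((WP (e j) (L2 ++ L1) * e j k0) ^ q * F ^ a) =
            (d j) ^ (a' * q) * τ j ((WP (e j) X') ^ q * F ^ a * e j k0) := by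
          obtain ⟨q', rfl⟩ : ∃ q', q = q' + 1 := ⟨q - 1, by omega⟩
          have hck0 : Commute (e j k0) (F ^ a) := (hcF k0 hk0M.1 hk0M.2).pow_right a
          have hPe : (WP (e j) (L2 ++ L1) * e j k0) ^ (q'+1) * e j k0 =
              d j • (WP (e j) (L2 ++ L1) * e j k0) ^ (q'+1) := by
            rw [pow_succ, mul_assoc, mul_assoc, (h j).sq k0 hk0M.2, mul_smul_comm, mul_smul_comm]
          have hsq : d j • ((WP (e j) (L2 ++ L1) * e j k0) ^ (q'+1) * F ^ a) =
              ((WP (e j) (L2 ++ L1) * e j k0) ^ (q'+1) * F ^ a) * e j k0 := by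
            rw [mul_assoc _ (F ^ a) (e j k0), ← hck0.eq, ← mul_assoc, hPe, smul_mul_assoc]
          rw [← smul_eq_mul, ← map_smul, hsq, hcyc, ← mul_assoc, hstep, smul_mul_assoc, map_smul,
            smul_eq_mul]
          congr 2
          rw [mul_assoc, hck0.eq, ← mul_assoc]
        -- move to the first place
        have hslide : τ j ((WP (e j) X') ^ q * F ^ a * e j k0) =
            τ j ((WP (e j) X') ^ q * F ^ a * e j k) := by
          obtain ⟨t, rfl⟩ : ∃ t, k0 = k + t := ⟨k0 - k, by omega⟩
          refine slide_many (h j) (τ j) (hcyc j) _ k t (by omega) (fun i h1 h2 => ?_)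
          refine Commute.mul_left (Commute.pow_left ?_ _) (Commute.pow_left ?_ _)
          · exact (comm_WPr h i X' (fun i' hi' => by have := hX' i' hi'; omega) j).symm
          · exact (hcF i h1 (by omega)).symm
        have hFF' : Commute F F' := by
          rw [hF']
          refine commute_FF _ _ (fun i h1 h2 => ?_)
          exact (FF_comm (hA j) (hd' j) (h j) (n'+2) k i (by omega) (by omega) (by omega)).symm
        have hFe : F * e j k = ((A j)⁻¹ ^ 6) • (F' * e j k) :=
          FF_e (hA j) (hd' j) (h j) n' k (by omega)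
        have hFa : ∀ a : ℕ, F ^ a * e j k = ((A j)⁻¹ ^ 6) ^ a • (F' ^ a * e j k) := by
          intro a
          induction a with
          | zero => simp
          | succ a iha =>
            rw [pow_succ, mul_assoc, hFe, mul_smul_comm, ← mul_assoc, (hFF'.pow_left a).eq,
              mul_assoc, iha, mul_smul_comm, smul_smul, ← mul_assoc, ← pow_succ', ← pow_succ']
        have hY : (WP (e j) X') ^ q * F' ^ a ∈ S j k := by
          refine mul_mem (pow_mem ?_ _) (pow_mem ?_ _)
          · have : ∀ X : List ℕ, (∀ i ∈ X, k < i ∧ i + 1 < M) → WP (e j) X ∈ S j k := by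
              intro X hX
              induction X with
              | nil => rw [WP_nil]; exact one_mem _
              | cons i X ihX =>
                rw [WP_cons]
                exact mul_mem (hS j k i (hX i List.mem_cons_self).1 (hX i List.mem_cons_self).2)
                  (ihX (fun i hi => hX i (List.mem_cons_of_mem _ hi)))
            exact this X' (fun i hi => by have := hX' i hi; omega)
          · have hsg : ∀ i, k < i → i + 1 < M → sg (A j) (e j) i ∈ S j k := by
              intro i h1 h2
              unfold sg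
              exact add_mem (Subalgebra.smul_mem _ (one_mem _) _)
                (Subalgebra.smul_mem _ (hS j k i h1 h2) _)
            have hLL : ∀ n k', k < k' → k' + n ≤ M → LL (sg (A j) (e j)) n k' ∈ S j k := by
              intro n
              induction n using Nat.strong_induction_on with
              | _ n ihn =>
                intro k' h1 h2
                rcases n with _ | _ | n
                · exact one_mem _
                · exact one_mem _
                · rw [LL]
                  exact mul_mem (mul_mem (hsg k' h1 (by omega)) (ihn (n+1) (by omega) (k'+1)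
                    (by omega) (by omega))) (hsg k' h1 (by omega))
            have hFFm : ∀ n k', k < k' → k' + n ≤ M → FF (sg (A j) (e j)) n k' ∈ S j k := by
              intro n
              induction n with
              | zero => intro k' _ _; exact one_mem _
              | succ n ihn =>
                intro k' h1 h2
                rw [FF]
                exact mul_mem (ihn (k'+1) (by omega) (by omega)) (hLL (n+1) k' h1 h2)
            exact hFFm n' (k+2) (by omega) (by omega)
        have hm := hmk j k _ (by omega) hY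
        have hlast : τ j ((WP (e j) X') ^ q * F ^ a * e j k) =
            ((A j)⁻¹ ^ 6) ^ a * τ j ((WP (e j) X') ^ q * F' ^ a * e j k) := by
          rw [mul_assoc, hFa, mul_smul_comm, map_smul, smul_eq_mul, ← mul_assoc]
        have g7 := g6 j q a hq
        rw [hE j, smul_pow, smul_mul_assoc, map_smul, smul_eq_mul, hcyc2]
        have hns : n' + 2 - s = (n' - s) + 2 := by omega
        rw [hns]
        calc (d j) ^ (n' - s + 2) * (((d j) ^ b) ^ q * τ j ((WP (e j) (L2 ++ L1) * e j k0) ^ q * F ^ a))
            = (d j) ^ (n' - s) * ((d j) ^ b) ^ q * d j *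
                (d j * τ j ((WP (e j) (L2 ++ L1) * e j k0) ^ q * F ^ a)) := by ring
          _ = (d j) ^ (n' - s) * ((d j) ^ b) ^ q * (d j) ^ (a' * q) * ((A j)⁻¹ ^ 6) ^ a *
                (d j * τ j ((WP (e j) X') ^ q * F' ^ a * e j k)) := by
              rw [hmain, hslide, hlast]; ring
          _ = ((d j) ^ b) ^ q * (d j) ^ (a' * q) * ((A j)⁻¹ ^ 6) ^ a *
                ((d j) ^ (n' - s) * τ j ((WP (e j) X') ^ q * F' ^ a)) := by rw [hm]; ring
          _ = _ := by
              rw [g7]
              have h1 : 3 * a * (n' - s + 2) = 6 * a + 3 * a * (n' - s) := by ring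
              have h2 : q * (z + a' + b) = b * q + a' * q + q * z := by ring
              rw [h1, h2, pow_add, pow_add, pow_add, pow_mul, pow_mul ((A j)⁻¹) 6 a]
              ring

end words2

end Pool.Agent.TH561
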