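import Pool.Agent.H891R2.Jones.Final
import Pool.Agent.TH561.PB.Mat
import Pool.Agent.TH561.PB.Words2

/-!
# Matrices which do not touch a strand, and the trace of words and full twists
-/

set_option autoImplicit false

namespace Pool.Agent.TH561

open Pool.Agent.H891R2.Jones Finset

section mat2

variable {m N : ℕ}

/-- the matrices which do not touch the strand `s` -/
def Loc (N : ℕ) (s : Fin m) : Subalgebra ℂ (Matrix (Fin m → Fin N) (Fin m → Fin N) ℂ) where
  carrier := {Y | (∀ x y, x s ≠ y s → Y x y = 0) ∧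
    ∀ (σ : Equiv.Perm (Fin N)) (x y), Y (permAt s σ x) (permAt s σ y) = Y x y}
  mul_mem' := by
    rintro Y Z ⟨h1, h2⟩ ⟨h3, h4⟩
    refine ⟨fun x y hxy => ?_, fun σ x y => ?_⟩
    · rw [Matrix.mul_apply]
      apply Finset.sum_eq_zero
      intro z _
      by_cases hz : x s = z s
      · rw [h3 z y (fun h => hxy (hz.trans h)), mul_zero]
      · rw [h1 x z hz, zero_mul]
    · rw [Matrix.mul_apply, Matrix.mul_apply, ← Equiv.sum_comp (permAt s σ)]
      refine Finset.sum_congr rfl fun z _ => ?_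
      rw [h2, h4]
  add_mem' := by
    rintro Y Z ⟨h1, h2⟩ ⟨h3, h4⟩
    refine ⟨fun x y hxy => ?_, fun σ x y => ?_⟩
    · rw [Matrix.add_apply, h1 x y hxy, h3 x y hxy, add_zero]
    · rw [Matrix.add_apply, Matrix.add_apply, h2, h4]
  algebraMap_mem' := by
    intro r
    refine ⟨fun x y hxy => ?_, fun σ x y => ?_⟩
    · rw [Matrix.algebraMap_matrix_apply, if_neg (fun h => hxy (by rw [h]))]
    · rw [Matrix.algebraMap_matrix_apply, Matrix.algebraMap_matrix_apply]
      simp only [(permAt s σ).injective.eq_iff]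

theorem KK_loc (s : Fin m) (i : ℕ) (h : i + 1 < m) (h1 : (⟨i, Nat.lt_of_succ_lt h⟩ : Fin m) ≠ s)
    (h2 : (⟨i+1, h⟩ : Fin m) ≠ s) : KK m N i ∈ Loc N s := by
  have key : ∀ x y, KK m N i x y = if x ⟨i, Nat.lt_of_succ_lt h⟩ = x ⟨i+1, h⟩ then
      ∑ c, (1 : Matrix (Fin m → Fin N) (Fin m → Fin N) ℂ)
        (upd x ⟨i, Nat.lt_of_succ_lt h⟩ ⟨i+1, h⟩ c) y else 0 := by
    intro x y
    have := KK_mul_apply i h (1 : Matrix (Fin m → Fin N) (Fin m → Fin N) ℂ) x y
    rw [mul_one] at this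
    rw [this]
  refine ⟨fun x y hxy => ?_, fun σ x y => ?_⟩
  · rw [key]
    split_ifs
    · apply Finset.sum_eq_zero
      intro c _
      rw [Matrix.one_apply, if_neg]
      intro h3
      apply hxy
      rw [← h3, upd_other _ _ h1.symm h2.symm]
    · rfl
  · rw [key, key, permAt_other s σ x h1, permAt_other s σ x h2]
    split_ifs
    · refine Finset.sum_congr rfl fun c _ => ?_
      have hx : upd (permAt s σ x) ⟨i, Nat.lt_of_succ_lt h⟩ ⟨i+1, h⟩ c =
          permAt s σ (upd x ⟨i, Nat.lt_of_succ_lt h⟩ ⟨i+1, h⟩ c) := by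
        funext j
        by_cases hj : j = s
        · subst hj
          rw [permAt_self, upd_other _ _ h1.symm h2.symm, upd_other _ _ h1.symm h2.symm, permAt_self]
        · rw [permAt_other s σ _ hj]
          simp only [upd]
          split_ifs
          · rfl
          · rw [permAt_other s σ _ hj]
      rw [hx, Matrix.one_apply, Matrix.one_apply]
      simp only [(permAt s σ).injective.eq_iff]
    · rfl

theorem markov2 (hN : N ≠ 0) (k : ℕ) (hk : k + 1 < m)
    (Y : Matrix (Fin m → Fin N) (Fin m → Fin N) ℂ) (hY : Y ∈ Loc N (⟨k, Nat.lt_of_succ_lt hk⟩ : Fin m)) :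
    (N : ℂ) * Matrix.trace (Y * KK m N k) = Matrix.trace Y := by
  obtain ⟨hY1, hY2⟩ := hY
  rw [Matrix.trace_mul_comm]
  unfold Matrix.trace
  have hrs : (⟨k+1, hk⟩ : Fin m) ≠ ⟨k, Nat.lt_of_succ_lt hk⟩ := by
    intro h; simp at h
  rw [← sum_place hN ⟨k, Nat.lt_of_succ_lt hk⟩ ⟨k+1, hk⟩ hrs (fun y => Y.diag y)]
  · congr 1
    refine Finset.sum_congr rfl fun y _ => ?_
    rw [Matrix.diag_apply, KK_mul_apply k hk]
    by_cases hy : y ⟨k, Nat.lt_of_succ_lt hk⟩ = y ⟨k+1, hk⟩
    · rw [if_pos hy, if_pos hy.symm, Finset.sum_eq_single (y ⟨k, Nat.lt_of_succ_lt hk⟩)]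
      · rw [Matrix.diag_apply]
        have hx : upd y ⟨k, Nat.lt_of_succ_lt hk⟩ ⟨k+1, hk⟩ (y ⟨k, Nat.lt_of_succ_lt hk⟩) = y := by
          funext j
          simp only [upd]
          split_ifs with hj
          · rcases hj with rfl | rfl
            · rfl
            · exact hy
          · rfl
        rw [hx]
      · intro c _ hc
        apply hY1
        rw [upd_left]
        exact hc
      · intro h; exact absurd (Finset.mem_univ _) h
    · rw [if_neg hy, if_neg (fun h => hy h.symm)]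
  · intro σ x
    rw [Matrix.diag_apply, Matrix.diag_apply]
    exact hY2 σ x x

/-- the two evaluation points for the loop value `N` -/
noncomputable def AA (N : ℕ) (b : Bool) : ℂ := if b then Ar N else (Ar N)⁻¹

theorem AA_ne (N : ℕ) (hN : 3 ≤ N) (b : Bool) : AA N b ≠ 0 := by
  unfold AA
  split_ifs
  · exact Ar_ne N hN
  · exact inv_ne_zero (Ar_ne N hN)

theorem AA_d (N : ℕ) (hN : 3 ≤ N) (b : Bool) : (N : ℂ) = -(AA N b)^2 - (AA N b)⁻¹^2 := by
  have h := Ar_d N hN
  unfold AA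
  split_ifs
  · exact h
  · rw [inv_inv]
    rw [h]
    ring

theorem trace_twist (m : ℕ) (L : List ℕ) (hL : ∀ i ∈ L, i + 1 < m) :
    ∃ s z : ℕ, s ≤ m ∧ s % 2 = m % 2 ∧ (s = m → L = []) ∧ L.length % 2 = z % 2 ∧
      (s + z ≤ m + L.length ∧ (L = [] ∨ s + z + 2 ≤ m + L.length)) ∧
      ∀ N : ℕ, 3 ≤ N → ∀ (b : Bool) (q a : ℕ), 1 ≤ q → (N : ℂ) ^ (m - s) *
        Matrix.trace ((WP (KK m N) L) ^ q * (FF (sg (AA N b) (KK m N)) m 0) ^ a) =
        (N : ℂ) ^ (q * z) * ((AA N b)⁻¹ ^ (3 * a * (m - s)) *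
          Matrix.trace ((FF (sg (AA N b) (KK m N)) s (m - s)) ^ a)) := by
  have hcond : ∀ k : ℕ, ∀ j : {N : ℕ // 3 ≤ N} × Bool, k + 1 < m → j.1.1 ≠ 0 := by
    intro k j _
    have := j.1.2
    omega
  obtain ⟨s, z, h1, h2, h3, h4, h5, h6⟩ := annularF (K := ℂ) (ι := {N : ℕ // 3 ≤ N} × Bool)
    (R := fun j => Matrix (Fin m → Fin j.1.1) (Fin m → Fin j.1.1) ℂ) (M := m)
    (d := fun j => (j.1.1 : ℂ)) (e := fun j => KK m j.1.1) (A := fun j => AA j.1.1 j.2)
    (fun j => AA_ne _ j.1.2 _) (fun j => AA_d _ j.1.2 _) (fun j => isTL_KK m j.1.1)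
    (fun j => Matrix.traceLinearMap _ ℂ ℂ)
    (fun j x y => Matrix.trace_mul_comm x y)
    (fun j k => if h : k < m then Loc j.1.1 (⟨k, h⟩ : Fin m) else ⊤)
    (by
      intro j k i hki hi
      have hk : k < m := by omega
      rw [dif_pos hk]
      apply KK_loc _ i hi
      · intro h; simp only [Fin.mk.injEq] at h; omega
      · intro h; simp only [Fin.mk.injEq] at h; omega)
    (by
      intro j k Y hk hY
      rw [dif_pos (show k < m by omega)] at hY
      exact markov2 (hcond k j hk) k hk Y hY)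
    m 0 (by omega) L (fun i hi => ⟨Nat.zero_le _, hL i hi⟩)
  refine ⟨s, z, h1, h2, h3, h4, h5, fun N hN b q a hq => ?_⟩
  exact h6 (⟨N, hN⟩, b) q a hq

/-! ### operators given by matrices -/

/-- the operator `S` is multiplication with the matrix `P` -/
def Impl (S : Module.End ℂ ((Fin m → Fin N) → ((Fin m → Fin N) → ℂ)))
    (P : Matrix (Fin m → Fin N) (Fin m → Fin N) ℂ) : Prop :=
  ∀ g : (Fin m → Fin N) → ((Fin m → Fin N) → ℂ), Matrix.of (S g) = P * Matrix.of g

theorem Impl.one : Impl (m := m) (N := N) 1 1 := by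
  intro g
  rw [Module.End.one_apply, one_mul]

theorem Impl.mul {S S' : Module.End ℂ ((Fin m → Fin N) → ((Fin m → Fin N) → ℂ))}
    {P P' : Matrix (Fin m → Fin N) (Fin m → Fin N) ℂ} (h : Impl S P) (h' : Impl S' P') :
    Impl (S * S') (P * P') := by
  intro g
  rw [Module.End.mul_apply, h, h', mul_assoc]

theorem Impl.pow {S : Module.End ℂ ((Fin m → Fin N) → ((Fin m → Fin N) → ℂ))}
    {P : Matrix (Fin m → Fin N) (Fin m → Fin N) ℂ} (h : Impl S P) : ∀ n : ℕ, Impl (S ^ n) (P ^ n)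
  | 0 => by simpa using Impl.one
  | n+1 => by
    rw [pow_succ, pow_succ]
    exact (Impl.pow h n).mul h

theorem impl_sg (B : ℂ) (i : ℕ) (hi : i + 1 < m) :
    Impl (sg B (ee m N ((Fin m → Fin N) → ℂ)) i) (sg B (KK m N) i) := by
  intro g
  have h := ee_of (N := N) i hi g
  unfold sg
  rw [add_mul, smul_mul_assoc, smul_mul_assoc, one_mul, ← h]
  rfl

theorem Impl.word (B : ℂ) (v : List ℕ) (hv : ∀ i ∈ v, i + 1 < m) :
    Impl ((v.map (sg B (ee m N ((Fin m → Fin N) → ℂ)))).prod)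
      ((v.map (sg B (KK m N))).prod) := by
  induction v with
  | nil => exact Impl.one
  | cons i v ih =>
    rw [List.map_cons, List.prod_cons, List.map_cons, List.prod_cons]
    exact (impl_sg B i (hv i List.mem_cons_self)).mul
      (ih (fun k hk => hv k (List.mem_cons_of_mem _ hk)))

theorem loopWord_reverse : ∀ n k, (loopWord n k).reverse = loopWord n k
  | 0, _ => rfl
  | 1, _ => rfl
  | (n+2), k => by
    rw [loopWord, List.reverse_append, List.reverse_append, loopWord_reverse (n+1) (k+1)]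
    simp

theorem twistWord_reverse_prod {K R : Type*} [Field K] [Ring R] [Algebra K R] {M : ℕ} {A d : K}
    {e : ℕ → R} (hA : A ≠ 0) (hd : d = -A^2 - A⁻¹^2) (h : IsTL M d e) :
    ∀ n k, k + n ≤ M → ((twistWord n k).reverse.map (sg A e)).prod = FF (sg A e) n k
  | 0, _, _ => rfl
  | (n+1), k, hM => by
    have ih := twistWord_reverse_prod hA hd h n (k+1) (by omega)
    rw [twistWord, List.reverse_append, List.map_append, List.prod_append, ih, loopWord_reverse,
      loopWord_prod, FF]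
    have hc : Commute (LL (sg A e) (n+1) k) (FF (sg A e) n (k+1)) := by
      refine commute_FF _ _ (fun i h1 h2 => ?_)
      exact (LL_comm hA hd h (n+1) k i hM h1 (by omega)).symm
    exact hc.eq

/-- the matrix of a power of the full twist -/
theorem Impl.twist (hN : 3 ≤ N) (a : ℤ) :
    Impl (((twistUnit (Ar_ne N hN) m N (Ar_d N hN) ^ a :
      (Module.End ℂ ((Fin m → Fin N) → ((Fin m → Fin N) → ℂ)))ˣ) :
        Module.End ℂ ((Fin m → Fin N) → ((Fin m → Fin N) → ℂ))))
      ((FF (sg (AA N (decide (0 ≤ a))) (KK m N)) m 0) ^ a.natAbs) := by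
  have hmem : ∀ i ∈ twistWord m 0, i + 1 < m := fun i hi => by
    have := twistWord_mem m 0 i hi; omega
  by_cases ha : 0 ≤ a
  · obtain ⟨n, rfl⟩ := Int.eq_ofNat_of_zero_le ha
    have h1 : decide (0 ≤ (n : ℤ)) = true := by simp
    rw [h1, zpow_natCast, Units.val_pow_eq_pow_val, Int.natAbs_natCast]
    apply Impl.pow
    have h2 := Impl.word (N := N) (m := m) (Ar N) (twistWord m 0) hmem
    rw [twistWord_prod, twistWord_prod] at h2
    exact h2
  · have h1 : decide (0 ≤ a) = false := by simpa using ha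
    have h3 : a = -(a.natAbs : ℤ) := by omega
    rw [h1]
    generalize hn : a.natAbs = n at h3
    subst h3
    rw [zpow_neg, zpow_natCast, ← inv_pow, Units.val_pow_eq_pow_val]
    apply Impl.pow
    have h2 := Impl.word (N := N) (m := m) (Ar N)⁻¹ (twistWord m 0).reverse
      (fun i hi => hmem i (List.mem_reverse.1 hi))
    rw [twistWord_reverse_prod (A := (Ar N)⁻¹) (inv_ne_zero (Ar_ne N hN)) (AA_d N hN false)
      (isTL_KK m N) m 0 (by omega)] at h2
    exact h2

end mat2

end Pool.Agent.TH561
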