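import Pool.Agent.TH561.PB.Main
import Pool.Agent.TH561.PB.Mat2

/-!
# The bracket of the closure of a power of a braid followed by full twists
-/

set_option autoImplicit false

namespace Pool.Agent.TH561

open Pool.Agent.H891R2.Jones Pool.Agent.W639.RB Finset LaurentPolynomial

section state2

variable {m : ℕ}

theorem nat_pow_inj3 {x y : ℕ} (h : ((3 : ℕ) : ℂ) ^ x = ((3 : ℕ) : ℂ) ^ y) : x = y := by
  have h2 : (3 : ℕ) ^ x = 3 ^ y := by exact_mod_cast h
  exact Nat.pow_right_injective (by norm_num) h2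

/-- the trace of a power of a word times a power of a full twist -/
theorem tr_twist (L : List ℕ) (hL : ∀ i ∈ L, i + 1 < m) :
    (lam m L ≤ m + L.length ∧ (L = [] ∨ lam m L + 2 ≤ m + L.length)) ∧
    ∀ N : ℕ, 3 ≤ N → ∀ (b : Bool) (q a : ℕ), 1 ≤ q → (N : ℂ) ^ (m - ess m L) *
        Matrix.trace ((WP (KK m N) L) ^ q * (FF (sg (AA N b) (KK m N)) m 0) ^ a) =
        (N : ℂ) ^ (q * ine m L) * ((AA N b)⁻¹ ^ (3 * a * (m - ess m L)) *
          Matrix.trace ((FF (sg (AA N b) (KK m N)) (ess m L) (m - ess m L)) ^ a)) := by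
  obtain ⟨s, z, h1, h2, h3, h4, h5, h6⟩ := trace_twist m L hL
  have hq : ∀ q : ℕ, 1 ≤ q → s + q * z = ess m L + q * ine m L := by
    intro q hq
    have g1 := h6 3 le_rfl true q 0 hq
    have g2 := (ess_ine L hL).2.2.2.2 3 (by norm_num) q hq
    rw [pow_zero, mul_one, g2, mul_zero, zero_mul, pow_zero, pow_zero, one_mul,
      Matrix.trace_one, Fintype.card_fun, Fintype.card_fin, Fintype.card_fin] at g1
    have g3 : ((3 : ℕ) : ℂ) ^ (m - s + (ess m L + q * ine m L)) = ((3 : ℕ) : ℂ) ^ (q * z + m) := by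
      rw [pow_add, g1, pow_add]
      push_cast
      ring
    have g4 := nat_pow_inj3 g3
    omega
  have e1 := hq 1 le_rfl
  have e2 := hq 2 (by norm_num)
  have hs : s = ess m L := by omega
  have hz : z = ine m L := by omega
  subst hs
  subst hz
  exact ⟨h5, h6⟩

/-- the state sum of a word with a fixed word of generators in front -/
noncomputable def SSum (m : ℕ) (L0 : List ℕ) (U : List (Bool × ℕ)) : ℤ[T;T⁻¹] :=
  ∑ g : St U, T (wt g) * dl ^ lam m (L0 ++ gw g)

theorem ev_SSum (N : ℕ) (hN : 3 ≤ N) (L0 : List ℕ) (hL0 : ∀ i ∈ L0, i + 1 < m)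
    (U : List (Bool × ℕ)) (hU : ∀ x ∈ U, x.2 + 1 < m) :
    ev N hN (SSum m L0 U) = Matrix.trace (WP (KK m N) L0 * MR (Ar N) m N U) := by
  rw [MR_sum (Ar_ne N hN), Finset.mul_sum, Matrix.trace_sum, SSum, map_sum]
  refine Finset.sum_congr rfl fun g _ => ?_
  rw [mul_smul_comm, Matrix.trace_smul, ← WP_append, trace_lam (L0 ++ gw g) (by
    intro i hi
    rcases List.mem_append.1 hi with hi | hi
    · exact hL0 i hi
    · exact gw_mem hU g i hi) (by omega), map_mul, map_pow, ev_dl, ev_T, smul_eq_mul]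

/-- `a` full twists on the strands `k, …, k + n - 1` -/
def TW (b : Bool) (n k a : ℕ) : List (Bool × ℕ) :=
  (List.replicate a ((twistWord n k).map (fun i => (b, i)))).flatten

theorem TW_mem (b : Bool) (n k a : ℕ) (h : k + n ≤ m) : ∀ x ∈ TW b n k a, x.2 + 1 < m := by
  intro x hx
  unfold TW at hx
  rw [List.mem_flatten] at hx
  obtain ⟨L, hL, hx⟩ := hx
  rw [List.mem_replicate] at hL
  rw [hL.2, List.mem_map] at hx
  obtain ⟨i, hi, rfl⟩ := hx
  have := twistWord_mem n k i hi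
  simp only
  omega

theorem TW_fst (b : Bool) (n k a : ℕ) : ∀ x ∈ TW b n k a, x.1 = b := by
  intro x hx
  unfold TW at hx
  rw [List.mem_flatten] at hx
  obtain ⟨L, hL, hx⟩ := hx
  rw [List.mem_replicate] at hL
  rw [hL.2, List.mem_map] at hx
  obtain ⟨i, hi, rfl⟩ := hx
  rfl

theorem TW_length (b : Bool) (n k a : ℕ) : (TW b n k a).length = a * (n * (n - 1)) := by
  unfold TW
  rw [List.length_flatten, List.map_replicate, List.sum_replicate, List.length_map,
    twistWord_length, smul_eq_mul]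

theorem ML_sg (N : ℕ) (b : Bool) (i : ℕ) : ML (Ar N) m N (b, i) = sg (AA N b) (KK m N) i := by
  unfold ML sg AA sgn
  cases b <;> simp

theorem MR_TW (N : ℕ) (b : Bool) (n k a : ℕ) :
    MR (Ar N) m N (TW b n k a) = (FF (sg (AA N b) (KK m N)) n k) ^ a := by
  unfold TW
  rw [MR_replicate]
  congr 1
  unfold MR
  rw [List.map_map, ← twistWord_prod]
  congr 1
  apply List.map_congr_left
  intro i _
  exact ML_sg N b i

/-- the bracket of the closure of a braid followed by full twists -/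
theorem bracket_formula2 (hm : 0 < m) (B : List (Bool × ℕ)) (hB : ∀ x ∈ B, x.2 + 1 < m) (q : ℕ)
    (W : List (Bool × ℕ)) (hW : ∀ x ∈ W, x.2 + 1 < m)
    (hWB : ∀ (A : ℂ) (N : ℕ), MR A m N W = (MR A m N B) ^ q) (a : ℤ) :
    dl * ((draw (braidClosure m) W).twisted a).bracket =
      ∑ f : Fin q → St B, T (∑ j, wt (f j)) * SSum m (seqw f) (TW (decide (0 ≤ a)) m 0 a.natAbs) := by
  rw [← sub_eq_zero]
  by_contra hne
  obtain ⟨N, hN, hev⟩ := exists_ev_ne _ hne
  apply hev
  rw [map_sub, sub_eq_zero, map_mul, ev_dl]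
  have : Nonempty ((draw (braidClosure m) W).twist a).P :=
    ⟨((draw (braidClosure m) W).twist a).lower ⟨0, hm⟩⟩
  unfold Outer.twisted
  rw [ev_bracket N hN, Z_close, Zg_twist (Ar_ne N hN) (Ar_d N hN), Zg_draw _ _ hW]
  set P := (FF (sg (AA N (decide (0 ≤ a))) (KK m N)) m 0) ^ a.natAbs with hP
  have h1 : Zg (Ar N) N (braidClosure m) (rho (Ar N) m N W
      (((twistUnit (Ar_ne N hN) m N (Ar_d N hN) ^ a :
        (Module.End ℂ ((Fin m → Fin N) → ((Fin m → Fin N) → ℂ)))ˣ) :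
        Module.End ℂ ((Fin m → Fin N) → ((Fin m → Fin N) → ℂ))) (fun x y => ind (x = y)))) =
      Matrix.trace (MR (Ar N) m N W * P) := by
    have h2 := rho_of (m := m) (N := N) (Ar N) W hW
      ((((twistUnit (Ar_ne N hN) m N (Ar_d N hN) ^ a :
        (Module.End ℂ ((Fin m → Fin N) → ((Fin m → Fin N) → ℂ)))ˣ) :
        Module.End ℂ ((Fin m → Fin N) → ((Fin m → Fin N) → ℂ))) (fun x y => ind (x = y))))
    rw [Impl.twist hN a, delta_eq, mul_one] at h2
    rw [← h2]
    unfold Zg Matrix.trace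
    refine Finset.sum_congr rfl fun u _ => ?_
    unfold WW braidClosure
    simp
  rw [h1, hWB, MR_pow (Ar_ne N hN), Finset.sum_mul, Matrix.trace_sum, map_sum]
  refine Finset.sum_congr rfl fun f _ => ?_
  rw [smul_mul_assoc, Matrix.trace_smul, map_mul, ev_T,
    ev_SSum N hN _ (seqw_mem hB f) _ (TW_mem _ m 0 _ (by omega)), MR_TW, smul_eq_mul]

theorem trace_rot2 {α : Type*} [Fintype α] [DecidableEq α] (q : ℕ) (x : Fin q → Matrix α α ℂ)
    (P : Matrix α α ℂ) (hP : ∀ j, Commute (x j) P) :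
    Matrix.trace ((List.ofFn (fun j => x (finRotate q j))).prod * P) =
      Matrix.trace ((List.ofFn x).prod * P) := by
  rcases q with _ | n
  · simp
  · have h1 : ∀ i : Fin n, finRotate (n+1) i.castSucc = i.succ := by
      intro i
      exact finRotate_of_lt i.2
    have h2 : finRotate (n+1) (Fin.last n) = 0 := finRotate_last
    rw [List.ofFn_succ' (fun j => x (finRotate (n+1) j)), List.concat_eq_append, List.prod_append,
      List.prod_singleton, h2, mul_assoc, (hP 0).eq, ← mul_assoc, Matrix.trace_mul_comm,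
      List.ofFn_succ, List.prod_cons, mul_assoc]
    simp only [h1]

theorem comm_P (N : ℕ) (hN : 3 ≤ N) (b : Bool) (a : ℕ) (i : ℕ) (hi : i + 1 < m) :
    Commute (KK m N i) ((FF (sg (AA N b) (KK m N)) m 0) ^ a) :=
  (FF_comm_e (AA_ne N hN b) (AA_d N hN b) (isTL_KK m N) m 0 i (by omega) (by omega)
    (by omega)).pow_right a

theorem comm_P_WP (N : ℕ) (hN : 3 ≤ N) (b : Bool) (a : ℕ) (L : List ℕ) (hL : ∀ i ∈ L, i + 1 < m) :
    Commute (WP (KK m N) L) ((FF (sg (AA N b) (KK m N)) m 0) ^ a) := by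
  induction L with
  | nil => exact Commute.one_left _
  | cons i L ih =>
    rw [WP_cons]
    exact (comm_P N hN b a i (hL i List.mem_cons_self)).mul_left
      (ih (fun k hk => hL k (List.mem_cons_of_mem _ hk)))

theorem eq_of_ev {f g : ℤ[T;T⁻¹]} (h : ∀ N (hN : 3 ≤ N), ev N hN f = ev N hN g) : f = g := by
  rw [← sub_eq_zero]
  by_contra hne
  obtain ⟨N, hN, hev⟩ := exists_ev_ne _ hne
  apply hev
  rw [map_sub, h N hN, sub_self]

theorem SSum_rot {B : List (Bool × ℕ)} (hB : ∀ x ∈ B, x.2 + 1 < m) {q : ℕ} (f : Fin q → St B)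
    (b : Bool) (a : ℕ) :
    SSum m (seqw (f ∘ finRotate q)) (TW b m 0 a) = SSum m (seqw f) (TW b m 0 a) := by
  apply eq_of_ev
  intro N hN
  rw [ev_SSum N hN _ (seqw_mem hB _) _ (TW_mem _ m 0 _ (by omega)),
    ev_SSum N hN _ (seqw_mem hB _) _ (TW_mem _ m 0 _ (by omega)), MR_TW, WP_seqw, WP_seqw]
  exact trace_rot2 q (fun j => WP (KK m N) (gw (f j))) _
    (fun j => comm_P_WP N hN b a _ (gw_mem hB _))

/-- the sign of the twists -/
def sgb (b : Bool) : ℤ := if b then 1 else -1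

theorem ev_T_AA (N : ℕ) (hN : 3 ≤ N) (b : Bool) (n : ℕ) :
    ev N hN (T (-sgb b * n)) = (AA N b)⁻¹ ^ n := by
  rw [ev_T]
  unfold sgb AA
  cases b
  · simp
  · simp

theorem SSum_const {B : List (Bool × ℕ)} (hB : ∀ x ∈ B, x.2 + 1 < m) {q : ℕ} (hq : 1 ≤ q)
    (i : St B) (b : Bool) (a : ℕ) :
    dl ^ (m - ess m (gw i)) * SSum m (seqw (fun _ : Fin q => i)) (TW b m 0 a) =
      dl ^ (q * ine m (gw i)) * (T (-sgb b * (3 * a * (m - ess m (gw i)) : ℕ)) *
        SSum m [] (TW b (ess m (gw i)) (m - ess m (gw i)) a)) := by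
  apply eq_of_ev
  intro N hN
  have hle := (ess_ine (gw i) (gw_mem hB i)).1
  rw [map_mul, map_mul, map_mul, map_pow, map_pow, ev_dl, ev_T_AA,
    ev_SSum N hN _ (seqw_mem hB _) _ (TW_mem _ m 0 _ (by omega)),
    ev_SSum N hN _ (by simp) _ (TW_mem _ _ _ _ (by omega)), MR_TW, MR_TW, WP_seqw,
    List.ofFn_const, List.prod_replicate, WP_nil, one_mul]
  exact (tr_twist (gw i) (gw_mem hB i)).2 N hN b q a hq

/-- the contribution of `s` essential curves -/
noncomputable def psi (p m : ℕ) [Fact p.Prime] (b : Bool) (a s : ℕ) : (ZMod p)[T;T⁻¹] :=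
  dF (ZMod p) ^ s * (T (-sgb b * (3 * a * (m - s) : ℕ)) * red p (SSum m [] (TW b s (m - s) a)))

theorem modp_formula2 (hm : 0 < m) (p : ℕ) [Fact p.Prime] (k : ℕ) (B : List (Bool × ℕ))
    (hB : ∀ x ∈ B, x.2 + 1 < m) (W : List (Bool × ℕ)) (hW : ∀ x ∈ W, x.2 + 1 < m)
    (hWB : ∀ (A : ℂ) (N : ℕ), MR A m N W = (MR A m N B) ^ (p ^ k)) (a : ℤ) :
    red p (dl ^ m * (dl * ((draw (braidClosure m) W).twisted a).bracket)) =
      ∑ s ∈ SS m, (cc p m B s) ^ (p ^ k) * psi p m (decide (0 ≤ a)) a.natAbs s := by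
  have hq : 1 ≤ p ^ k := Nat.one_le_iff_ne_zero.2 (pow_ne_zero k (Fact.out : p.Prime).ne_zero)
  set b := decide (0 ≤ a) with hb
  set n := a.natAbs with hn
  rw [bracket_formula2 hm B hB (p ^ k) W hW hWB, map_mul, map_sum, map_pow, red_dl]
  have h1 : ∀ f : Fin (p ^ k) → St B, red p (T (∑ j, wt (f j)) * SSum m (seqw f) (TW b m 0 n)) =
      T (∑ j, wt (f j)) * red p (SSum m (seqw f) (TW b m 0 n)) := by
    intro f
    rw [map_mul, red_T]
  rw [← hb, Finset.sum_congr rfl (fun f _ => h1 f)]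
  rw [sum_seq p k (fun f : Fin (p ^ k) → St B =>
    (T (∑ j, wt (f j)) * red p (SSum m (seqw f) (TW b m 0 n)) : (ZMod p)[T;T⁻¹])) (by
      intro f
      rw [SSum_rot hB f]
      congr 2
      exact Equiv.sum_comp (finRotate (p ^ k)) (fun j => wt (f j)))]
  rw [Finset.mul_sum]
  have h2 : ∀ i : St B, dF (ZMod p) ^ m * (T (∑ _j : Fin (p ^ k), wt i) *
      red p (SSum m (seqw (fun _ : Fin (p ^ k) => i)) (TW b m 0 n))) =
      (T (wt i) * dF (ZMod p) ^ ine m (gw i)) ^ (p ^ k) * psi p m b n (ess m (gw i)) := by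
    intro i
    have h3 := congrArg (red p) (SSum_const hB hq i b n)
    rw [map_mul, map_mul, map_mul, map_pow, map_pow, red_dl, red_T] at h3
    have h4 : dF (ZMod p) ^ m = dF (ZMod p) ^ ess m (gw i) * dF (ZMod p) ^ (m - ess m (gw i)) := by
      rw [← pow_add]
      congr 1
      have hle := (ess_ine (gw i) (gw_mem hB i)).1
      omega
    have h5 : (T (∑ _j : Fin (p ^ k), wt i) : (ZMod p)[T;T⁻¹]) = T (wt i) ^ (p ^ k) := by
      rw [T_pow, Finset.sum_const, Finset.card_univ, Fintype.card_fin, nsmul_eq_mul]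
    rw [h4, h5, mul_pow, ← pow_mul, mul_comm (ine m (gw i)) (p ^ k)]
    unfold psi
    calc _ = dF (ZMod p) ^ ess m (gw i) * T (wt i) ^ (p ^ k) * (dF (ZMod p) ^ (m - ess m (gw i)) *
          red p (SSum m (seqw (fun _ : Fin (p ^ k) => i)) (TW b m 0 n))) := by ring
      _ = _ := by rw [h3]; ring
  rw [Finset.sum_congr rfl (fun i _ => h2 i)]
  have hmaps : ∀ i ∈ (univ : Finset (St B)), ess m (gw i) ∈ SS m := by
    intro i _
    unfold SS
    obtain ⟨h3, h4, _⟩ := ess_ine (gw i) (gw_mem hB i)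
    rw [Finset.mem_filter, Finset.mem_range]
    exact ⟨by omega, h4⟩
  rw [← Finset.sum_fiberwise_of_maps_to hmaps]
  refine Finset.sum_congr rfl fun s _ => ?_
  unfold cc
  rw [sum_pow_char_pow, Finset.sum_mul]
  refine Finset.sum_congr rfl fun i hi => ?_
  rw [Finset.mem_filter] at hi
  rw [hi.2]

end state2

end Pool.Agent.TH561
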