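import Mathlib

/-!
# Top exponents of Laurent polynomials, and sums over cyclic sequences modulo a prime
-/

set_option autoImplicit false

namespace Pool.Agent.TH561

open LaurentPolynomial Finset

section top

variable {F : Type*} [Field F]

/-- `t` is the largest exponent of `f` -/
def Top (f : F[T;T⁻¹]) (t : ℤ) : Prop := f.coeff t ≠ 0 ∧ ∀ n, t < n → f.coeff n = 0

theorem Top.ne_zero {f : F[T;T⁻¹]} {t : ℤ} (h : Top f t) : f ≠ 0 := by
  rintro rfl
  exact h.1 (by simp)

theorem Top.mul {f g : F[T;T⁻¹]} {t u : ℤ} (hf : Top f t) (hg : Top g u) : Top (f * g) (t + u) := by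
  constructor
  · rw [AddMonoidAlgebra.coeff_mul_add_of_uniqueAdd]
    · exact mul_ne_zero hf.1 hg.1
    · intro a b ha hb hab
      have h1 : a ≤ t := by
        by_contra hcon
        exact (Finsupp.mem_support_iff.1 ha) (hf.2 a (not_le.1 hcon))
      have h2 : b ≤ u := by
        by_contra hcon
        exact (Finsupp.mem_support_iff.1 hb) (hg.2 b (not_le.1 hcon))
      constructor <;> omega
  · intro n hn
    by_contra hcon
    classical
    have h := AddMonoidAlgebra.support_coeff_mul_subset f g (Finsupp.mem_support_iff.2 hcon)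
    rw [Finset.mem_add] at h
    obtain ⟨a, ha, b, hb, hab⟩ := h
    have h1 : a ≤ t := by
      by_contra hcon
      exact (Finsupp.mem_support_iff.1 ha) (hf.2 a (not_le.1 hcon))
    have h2 : b ≤ u := by
      by_contra hcon
      exact (Finsupp.mem_support_iff.1 hb) (hg.2 b (not_le.1 hcon))
    omega

theorem top_T (n : ℤ) : Top (T n : F[T;T⁻¹]) n := by
  constructor
  · simp
  · intro k hk
    rw [T_apply, if_neg (by omega)]

theorem top_one : Top (1 : F[T;T⁻¹]) 0 := by
  rw [← T_zero]; exact top_T 0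

theorem Top.pow {f : F[T;T⁻¹]} {t : ℤ} (hf : Top f t) : ∀ n : ℕ, Top (f ^ n) (n * t)
  | 0 => by simpa using top_one
  | n+1 => by
    have := (Top.pow hf n).mul hf
    rw [pow_succ]
    convert this using 1
    push_cast
    ring

theorem exists_top (f : F[T;T⁻¹]) (hf : f ≠ 0) : ∃ t, Top f t := by
  have hne : f.coeff.support.Nonempty := by
    rw [Finsupp.support_nonempty_iff]
    intro h
    apply hf
    ext a
    rw [h]
    simp
  refine ⟨f.coeff.support.max' hne, Finsupp.mem_support_iff.1 (Finset.max'_mem _ _), fun n hn => ?_⟩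
  by_contra hcon
  have := Finset.le_max' _ n (Finsupp.mem_support_iff.2 hcon)
  omega

theorem sum_top {ι : Type*} (S : Finset ι) (f : ι → F[T;T⁻¹]) (t : ι → ℤ)
    (h : ∀ i ∈ S, f i = 0 ∨ Top (f i) (t i))
    (hinj : ∀ i ∈ S, ∀ j ∈ S, f i ≠ 0 → f j ≠ 0 → t i = t j → i = j)
    {i0 : ι} (hi0 : i0 ∈ S) (h0 : f i0 ≠ 0) :
    ∃ c, t i0 ≤ c ∧ (∑ i ∈ S, f i).coeff c ≠ 0 := by
  classical
  obtain ⟨i1, hi1, hmax⟩ := Finset.exists_max_image (S.filter (fun i => f i ≠ 0)) t
    ⟨i0, Finset.mem_filter.2 ⟨hi0, h0⟩⟩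
  rw [Finset.mem_filter] at hi1
  refine ⟨t i1, hmax i0 (Finset.mem_filter.2 ⟨hi0, h0⟩), ?_⟩
  have h1 : Top (f i1) (t i1) := (h i1 hi1.1).resolve_left hi1.2
  have h2 : (∑ i ∈ S, f i).coeff (t i1) = (f i1).coeff (t i1) := by
    rw [AddMonoidAlgebra.coeff_sum, Finset.sum_apply', Finset.sum_eq_single i1]
    · intro j hj hne
      by_cases hfj : f j = 0
      · rw [hfj]; simp
      · have h3 : Top (f j) (t j) := (h j hj).resolve_left hfj
        have h4 := hmax j (Finset.mem_filter.2 ⟨hj, hfj⟩)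
        apply h3.2
        rcases lt_or_eq_of_le h4 with h5 | h5
        · exact h5
        · exact absurd (hinj j hj i1 hi1.1 hfj hi1.2 h5) hne
    · intro hn; exact absurd hi1.1 hn
  rw [h2]
  exact h1.1

/-- all exponents are congruent to `r` modulo four -/
def Res4 (f : F[T;T⁻¹]) (r : ℤ) : Prop := ∀ n, f.coeff n ≠ 0 → (4 : ℤ) ∣ n - r

theorem Res4.mul {f g : F[T;T⁻¹]} {r s : ℤ} (hf : Res4 f r) (hg : Res4 g s) : Res4 (f * g) (r + s) := by
  intro n hn
  classical
  have h := AddMonoidAlgebra.support_coeff_mul_subset f g (Finsupp.mem_support_iff.2 hn)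
  rw [Finset.mem_add] at h
  obtain ⟨a, ha, b, hb, hab⟩ := h
  have h1 := hf a (Finsupp.mem_support_iff.1 ha)
  have h2 := hg b (Finsupp.mem_support_iff.1 hb)
  omega

theorem res4_T (n : ℤ) : Res4 (T n : F[T;T⁻¹]) n := by
  intro k hk
  rw [T_apply] at hk
  have : n = k := by
    by_contra hne
    exact hk (if_neg hne)
  omega

theorem Res4.pow {f : F[T;T⁻¹]} {r : ℤ} (hf : Res4 f r) : ∀ n : ℕ, Res4 (f ^ n) (n * r)
  | 0 => by
    have := res4_T (F := F) 0
    simpa using this
  | n+1 => by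
    have := (Res4.pow hf n).mul hf
    rw [pow_succ]
    convert this using 1
    push_cast
    ring

theorem Res4.congr {f : F[T;T⁻¹]} {r s : ℤ} (hf : Res4 f r) (h : (4 : ℤ) ∣ r - s) : Res4 f s := by
  intro n hn
  have := hf n hn
  omega

theorem Res4.sum {ι : Type*} (S : Finset ι) (f : ι → F[T;T⁻¹]) (r : ℤ) (h : ∀ i ∈ S, Res4 (f i) r) :
    Res4 (∑ i ∈ S, f i) r := by
  intro n hn
  rw [AddMonoidAlgebra.coeff_sum, Finset.sum_apply'] at hn
  obtain ⟨i, hi, hne⟩ := Finset.exists_ne_zero_of_sum_ne_zero hn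
  exact h i hi n hne

/-- the loop value -/
noncomputable def dF (F : Type*) [Field F] : F[T;T⁻¹] := -T 2 - T (-2)

theorem top_dF : Top (dF F) 2 := by
  unfold dF
  constructor
  · simp
  · intro n hn
    have h1 : (2 : ℤ) ≠ n := by omega
    have h2 : (-2 : ℤ) ≠ n := by omega
    simp [T_apply, h1, h2]

theorem res4_dF : Res4 (dF F) 2 := by
  intro n hn
  unfold dF at hn
  by_cases h1 : (2 : ℤ) = n
  · omega
  · by_cases h2 : (-2 : ℤ) = n
    · omega
    · exact absurd (by simp [T_apply, h1, h2]) hn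

theorem invert_dF : invert (dF F) = dF F := by
  unfold dF
  rw [map_sub, map_neg, invert_T, invert_T]
  simp only [neg_neg]
  ring

theorem top_powers {q m : ℕ} (hq : m / 2 < q) (ω : ℤ) (c : ℕ → F[T;T⁻¹]) (hc : ∀ s, Res4 (c s) ω)
    (S : Finset ℕ) (hS : ∀ s ∈ S, s ≤ m ∧ s % 2 = m % 2) (hmS : m ∈ S) (hcm : c m = T ω) :
    ∃ n, q * ω + 2 * m ≤ n ∧ (∑ s ∈ S, (c s) ^ q * (dF F) ^ s).coeff n ≠ 0 := by
  classical
  have ht : ∀ s, ∃ t, c s ≠ 0 → Top (c s) t := by
    intro s
    by_cases h : c s = 0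
    · exact ⟨0, fun h' => absurd h h'⟩
    · obtain ⟨t, ht⟩ := exists_top (c s) h
      exact ⟨t, fun _ => ht⟩
  choose t ht using ht
  have hq0 : q ≠ 0 := by omega
  have hne : ∀ s, (c s) ^ q * (dF F) ^ s ≠ 0 → c s ≠ 0 := by
    intro s h h'
    apply h
    rw [h', zero_pow hq0, zero_mul]
  have htop : ∀ s, c s ≠ 0 → Top ((c s) ^ q * (dF F) ^ s) (q * t s + s * 2) := fun s hs =>
    ((ht s hs).pow q).mul (top_dF.pow s)
  have hcm0 : c m ≠ 0 := by rw [hcm]; exact (top_T ω).ne_zero
  have htm : t m = ω := by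
    have h1 := ht m hcm0
    rw [hcm] at h1
    have h2 := top_T (F := F) ω
    rcases lt_trichotomy (t m) ω with h | h | h
    · exact absurd (h1.2 _ h) h2.1
    · exact h
    · exact absurd (h2.2 _ h) h1.1
  obtain ⟨n, hn1, hn2⟩ := sum_top S (fun s => (c s) ^ q * (dF F) ^ s) (fun s => q * t s + s * 2) (by
      intro s _
      by_cases h : c s = 0
      · left; simp only [h, zero_pow hq0, zero_mul]
      · right; exact htop s h) (by
      intro i hi j hj hfi hfj hij
      have hi' := hS i hi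
      have hj' := hS j hj
      have h1 := hc i (t i) (ht i (hne i hfi)).1
      have h2 := hc j (t j) (ht j (hne j hfj)).1
      obtain ⟨k1, hk1⟩ := h1
      obtain ⟨k2, hk2⟩ := h2
      have h3 : (2 * q : ℤ) * (k1 - k2) = j - i := by
        have h4 : (q : ℤ) * t i + i * 2 = q * t j + j * 2 := hij
        have h5 : t i = ω + 4 * k1 := by linarith
        have h6 : t j = ω + 4 * k2 := by linarith
        rw [h5, h6] at h4
        linarith
      have h4 : (j : ℤ) - i < 2 * q := by omega
      have h5 : -(2 * q : ℤ) < j - i := by omega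
      have hqp : (0 : ℤ) < 2 * q := by omega
      have h6 : k1 - k2 = 0 := by
        rw [← h3] at h4 h5
        have h7 : k1 - k2 < 1 := by
          by_contra hcon
          push Not at hcon
          nlinarith
        have h8 : -1 < k1 - k2 := by
          by_contra hcon
          push Not at hcon
          nlinarith
        omega
      rw [h6, mul_zero] at h3
      omega) hmS ((htop m hcm0).ne_zero)
  refine ⟨n, ?_, hn2⟩
  have : (q : ℤ) * t m + m * 2 ≤ n := hn1
  rw [htm] at this
  linarith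

theorem bot_powers {q m : ℕ} (hq : m / 2 < q) (ω : ℤ) (c : ℕ → F[T;T⁻¹]) (hc : ∀ s, Res4 (c s) ω)
    (S : Finset ℕ) (hS : ∀ s ∈ S, s ≤ m ∧ s % 2 = m % 2) (hmS : m ∈ S) (hcm : c m = T ω) :
    ∃ n, n ≤ q * ω - 2 * m ∧ (∑ s ∈ S, (c s) ^ q * (dF F) ^ s).coeff n ≠ 0 := by
  obtain ⟨n, h1, h2⟩ := top_powers (F := F) hq (-ω) (fun s => invert (c s)) (by
    intro s n hn
    rw [invert_apply] at hn
    have := hc s _ hn
    omega) S hS hmS (by
    show invert (c m) = _
    rw [hcm, invert_T])
  refine ⟨-n, by linarith, ?_⟩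
  have h3 : (∑ s ∈ S, (invert (c s)) ^ q * (dF F) ^ s) = invert (∑ s ∈ S, (c s) ^ q * (dF F) ^ s) := by
    rw [map_sum]
    refine Finset.sum_congr rfl fun s _ => ?_
    rw [map_mul, map_pow, map_pow, invert_dF]
  rw [h3, invert_apply] at h2
  exact h2

end top

/-! ### sums modulo a prime -/

section modp

/-- In characteristic `p` the sum of a function invariant under a permutation of order a power of
`p` is the sum over the fixed points. -/
theorem sum_fixed {α : Type*} [Fintype α] [DecidableEq α] {S : Type*} [CommRing S] (p : ℕ)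
    [hp : Fact p.Prime] [CharP S p] (σ : Equiv.Perm α) (k : ℕ) (hσ : σ ^ (p ^ k) = 1) (g : α → S)
    (hg : ∀ x, g (σ x) = g x) : ∑ x, g x = ∑ x ∈ univ.filter (fun x => σ x = x), g x := by
  classical
  have h1 : ∑ x, g x = ∑ v ∈ univ.image g, ∑ x ∈ univ.filter (fun x => g x = v), v :=
    (Finset.sum_fiberwise_of_maps_to' (fun x _ => Finset.mem_image_of_mem g (Finset.mem_univ x))
      (fun v => v)).symm
  have h2 : ∑ x ∈ univ.filter (fun x => σ x = x), g x =
      ∑ v ∈ univ.image g, ∑ x ∈ (univ.filter (fun x => σ x = x)).filter (fun x => g x = v), v :=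
    (Finset.sum_fiberwise_of_maps_to' (fun x _ => Finset.mem_image_of_mem g (Finset.mem_univ x))
      (fun v => v)).symm
  rw [h1, h2]
  refine Finset.sum_congr rfl fun v _ => ?_
  rw [Finset.sum_const, Finset.sum_const, nsmul_eq_mul, nsmul_eq_mul]
  congr 1
  rw [CharP.cast_eq_iff_mod_eq S p]
  -- restrict to the level set
  let τ : Equiv.Perm {x // g x = v} := σ.subtypePerm (fun x => by rw [hg])
  have hτ : τ ^ (p ^ k) = 1 := by
    ext x
    rw [Equiv.Perm.subtypePerm_pow]
    simp [hσ]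
  have h3 := Equiv.Perm.card_compl_support_modEq hτ
  have h4 : (univ.filter (fun x => g x = v)).card = Fintype.card {x // g x = v} := by
    rw [Fintype.card_subtype]
  have h5 : ((univ.filter (fun x => σ x = x)).filter (fun x => g x = v)).card = (τ.supportᶜ).card := by
    rw [← Finset.card_map (Function.Embedding.subtype (fun x => g x = v))]
    congr 1
    ext x
    simp only [Finset.mem_filter, Finset.mem_univ, true_and, Finset.mem_map, Finset.mem_compl,
      Equiv.Perm.mem_support, not_not, Function.Embedding.subtype_apply, Subtype.exists]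
    constructor
    · rintro ⟨h6, h7⟩
      refine ⟨x, h7, ?_, rfl⟩
      apply Subtype.ext
      exact h6
    · rintro ⟨y, hy, h6, rfl⟩
      exact ⟨congrArg Subtype.val h6, hy⟩
  rw [h4, h5]
  exact h3.symm

/-- rotation of sequences -/
def rotE (q : ℕ) (I : Type*) : Equiv.Perm (Fin q → I) where
  toFun f := f ∘ finRotate q
  invFun f := f ∘ (finRotate q).symm
  left_inv f := by funext i; exact congrArg f (Equiv.apply_symm_apply _ i)
  right_inv f := by funext i; exact congrArg f (Equiv.symm_apply_apply _ i)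

theorem rotE_pow (q : ℕ) (I : Type*) (n : ℕ) (f : Fin q → I) :
    (rotE q I ^ n) f = f ∘ (finRotate q ^ n : Equiv.Perm (Fin q)) := by
  induction n with
  | zero => rfl
  | succ n ih =>
    rw [pow_succ', Equiv.Perm.mul_apply, ih]
    funext i
    rw [pow_succ]
    rfl

theorem finRotate_pow (n : ℕ) : (finRotate (n+1) ^ (n+1) : Equiv.Perm (Fin (n+1))) = 1 := by
  rcases n with _ | k
  · ext i
    have := (( finRotate (0+1) ^ (0+1) : Equiv.Perm (Fin (0+1))) i).2
    have := ((1 : Equiv.Perm (Fin (0+1))) i).2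
    omega
  · have h1 := (isCycle_finRotate (n := k)).orderOf
    rw [support_finRotate, Finset.card_univ, Fintype.card_fin] at h1
    have h2 := pow_orderOf_eq_one (finRotate (k + 2))
    rw [h1] at h2
    exact h2

theorem finRotate_reach (n : ℕ) (j : Fin (n+1)) :
    ∃ i : ℕ, (finRotate (n+1) ^ i : Equiv.Perm (Fin (n+1))) ⟨0, Nat.succ_pos n⟩ = j := by
  rcases n with _ | k
  · refine ⟨0, ?_⟩
    ext
    have := j.2
    simp only [pow_zero, Equiv.Perm.coe_one, id_eq]
    omega
  · have h2 : ∀ x, finRotate (k + 2) x ≠ x := by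
      intro x
      have h3 : x ∈ (finRotate (k+2)).support := by rw [support_finRotate]; exact Finset.mem_univ x
      exact Equiv.Perm.mem_support.1 h3
    obtain ⟨i, _, hi⟩ := ((isCycle_finRotate (n := k)).sameCycle (h2 ⟨0, Nat.succ_pos _⟩) (h2 j)).exists_pow_eq'
    exact ⟨i, hi⟩

theorem rotE_pow_self (q : ℕ) (hq : 0 < q) (I : Type*) : rotE q I ^ q = 1 := by
  obtain ⟨n, rfl⟩ : ∃ n, q = n + 1 := ⟨q - 1, by omega⟩
  apply Equiv.ext
  intro f
  rw [rotE_pow, finRotate_pow]
  rfl

theorem rotE_fixed {q : ℕ} (hq : 0 < q) {I : Type*} (f : Fin q → I) (h : rotE q I f = f) :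
    ∀ j, f j = f ⟨0, hq⟩ := by
  obtain ⟨n, rfl⟩ : ∃ n, q = n + 1 := ⟨q - 1, by omega⟩
  have h1 : ∀ i, f (finRotate (n+1) i) = f i := fun i => congrFun h i
  have h2 : ∀ (k : ℕ) (i : Fin (n+1)), f ((finRotate (n+1) ^ k : Equiv.Perm (Fin (n+1))) i) = f i := by
    intro k
    induction k with
    | zero => intro i; rfl
    | succ k ih => intro i; rw [pow_succ', Equiv.Perm.mul_apply, h1, ih]
  intro j
  obtain ⟨i, hi⟩ := finRotate_reach n j
  rw [← hi, h2]

/-- in characteristic `p` only the constant sequences contribute -/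
theorem sum_seq {I : Type*} [Fintype I] [DecidableEq I] {S : Type*} [CommRing S] (p : ℕ)
    [hp : Fact p.Prime] [CharP S p] (k : ℕ) (g : (Fin (p ^ k) → I) → S)
    (hg : ∀ f, g (f ∘ finRotate (p ^ k)) = g f) : ∑ f, g f = ∑ i : I, g (fun _ => i) := by
  have hq : 0 < p ^ k := pow_pos hp.out.pos k
  rw [sum_fixed p (rotE (p ^ k) I) k (rotE_pow_self _ hq I) g hg]
  symm
  apply Finset.sum_bij (fun i _ => (fun _ => i : Fin (p ^ k) → I))
  · intro i _
    rw [Finset.mem_filter]
    exact ⟨Finset.mem_univ _, rfl⟩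
  · intro i _ j _ h
    exact congrFun h ⟨0, hq⟩
  · intro f hf
    rw [Finset.mem_filter] at hf
    refine ⟨f ⟨0, hq⟩, Finset.mem_univ _, ?_⟩
    funext j
    exact (rotE_fixed hq f hf.2 j).symm
  · intro i _; rfl

end modp

end Pool.Agent.TH561
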