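import Pool.Agent.TH561.PB.State
import Pool.Agent.TH561.PB.Top

/-!
# The degrees of the Jones polynomials of closures of powers of braids
-/

set_option autoImplicit false

namespace Pool.Agent.TH561

open Pool.Agent.H891R2.Jones Pool.Agent.W639.RB Finset LaurentPolynomial

section main

variable {m : ℕ}

/-- reduction modulo `p` -/
noncomputable def red (p : ℕ) : ℤ[T;T⁻¹] →+* (ZMod p)[T;T⁻¹] :=
  AddMonoidAlgebra.mapRingHom ℤ (Int.castRingHom (ZMod p))

theorem red_T (p : ℕ) (n : ℤ) : red p (T n) = T n := by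
  unfold red T
  rw [AddMonoidAlgebra.mapRingHom_single, map_one]

theorem red_dl (p : ℕ) [Fact p.Prime] : red p dl = dF (ZMod p) := by
  unfold dl dF
  rw [map_sub, map_neg, red_T, red_T]

theorem red_coeff (p : ℕ) (f : ℤ[T;T⁻¹]) (n : ℤ) (h : (red p f).coeff n ≠ 0) : f.coeff n ≠ 0 := by
  intro h0
  apply h
  unfold red
  rw [AddMonoidAlgebra.coeff_mapRingHom, h0, map_zero]

instance charP_laurent (p : ℕ) [Fact p.Prime] : CharP (ZMod p)[T;T⁻¹] p :=
  charP_of_injective_ringHom (f := (C : ZMod p →+* (ZMod p)[T;T⁻¹]))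
    (RingHom.injective _) p

theorem trace_rot {α : Type*} [Fintype α] [DecidableEq α] (q : ℕ) (x : Fin q → Matrix α α ℂ) :
    Matrix.trace (List.ofFn (fun j => x (finRotate q j))).prod = Matrix.trace (List.ofFn x).prod := by
  rcases q with _ | n
  · simp
  · have h1 : ∀ i : Fin n, finRotate (n+1) i.castSucc = i.succ := by
      intro i
      exact finRotate_of_lt i.2
    have h2 : finRotate (n+1) (Fin.last n) = 0 := finRotate_last
    rw [List.ofFn_succ' (fun j => x (finRotate (n+1) j)), List.concat_eq_append, List.prod_append,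
      List.prod_singleton, Matrix.trace_mul_comm, List.ofFn_succ, List.prod_cons, h2]
    simp only [h1]

theorem WP_seqw {B : List (Bool × ℕ)} {q N : ℕ} (f : Fin q → St B) :
    WP (KK m N) (seqw f) = (List.ofFn (fun j => WP (KK m N) (gw (f j)))).prod := by
  unfold seqw
  rw [WP_flatten, List.map_ofFn]
  rfl

theorem lam_rot {B : List (Bool × ℕ)} (hB : ∀ x ∈ B, x.2 + 1 < m) {q : ℕ} (f : Fin q → St B) :
    lam m (seqw (f ∘ finRotate q)) = lam m (seqw f) := by
  apply lam_eq (seqw_mem hB _) (seqw_mem hB _)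
  rw [WP_seqw, WP_seqw]
  exact trace_rot q (fun j => WP (KK m 2) (gw (f j)))

theorem lam_const {B : List (Bool × ℕ)} (hB : ∀ x ∈ B, x.2 + 1 < m) {q : ℕ} (hq : 1 ≤ q) (i : St B) :
    lam m (seqw (fun _ : Fin q => i)) = ess m (gw i) + q * ine m (gw i) := by
  have h1 := trace_lam (N := 2) (seqw (fun _ : Fin q => i)) (seqw_mem hB _) (by norm_num)
  rw [WP_seqw, List.ofFn_const, List.prod_replicate,
    (ess_ine (gw i) (gw_mem hB i)).2.2.2.2 2 (by norm_num) q hq] at h1
  have h2 : (2 : ℕ) ^ (ess m (gw i) + q * ine m (gw i)) = 2 ^ lam m (seqw (fun _ : Fin q => i)) := by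
    exact_mod_cast h1
  exact (Nat.pow_right_injective le_rfl h2).symm

/-- the coefficient of the `s`-th power of the core in the annular bracket, modulo `p` -/
noncomputable def cc (p m : ℕ) [Fact p.Prime] (B : List (Bool × ℕ)) (s : ℕ) : (ZMod p)[T;T⁻¹] :=
  ∑ i ∈ (univ : Finset (St B)).filter (fun i => ess m (gw i) = s), T (wt i) * dF (ZMod p) ^ ine m (gw i)

/-- the essential numbers -/
def SS (m : ℕ) : Finset ℕ := (range (m+1)).filter (fun s => s % 2 = m % 2)

theorem modp_formula (hm : 0 < m) (p : ℕ) [Fact p.Prime] (k : ℕ) (B : List (Bool × ℕ))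
    (hB : ∀ x ∈ B, x.2 + 1 < m) (W : List (Bool × ℕ)) (hW : ∀ x ∈ W, x.2 + 1 < m)
    (hWB : ∀ (A : ℂ) (N : ℕ), MR A m N W = (MR A m N B) ^ (p ^ k)) :
    red p (dl * (draw (braidClosure m) W).close.bracket) =
      ∑ s ∈ SS m, (cc p m B s) ^ (p ^ k) * dF (ZMod p) ^ s := by
  have hq : 1 ≤ p ^ k := Nat.one_le_iff_ne_zero.2 (pow_ne_zero k (Fact.out : p.Prime).ne_zero)
  rw [bracket_formula hm B hB (p ^ k) W hW hWB, map_sum]
  have h1 : ∀ f : Fin (p ^ k) → St B, red p (T (∑ j, wt (f j)) * dl ^ lam m (seqw f)) =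
      T (∑ j, wt (f j)) * dF (ZMod p) ^ lam m (seqw f) := by
    intro f
    rw [map_mul, map_pow, red_T, red_dl]
  rw [Finset.sum_congr rfl (fun f _ => h1 f)]
  rw [sum_seq p k (fun f : Fin (p ^ k) → St B =>
    (T (∑ j, wt (f j)) * dF (ZMod p) ^ lam m (seqw f) : (ZMod p)[T;T⁻¹])) (by
      intro f
      rw [lam_rot hB f]
      congr 2
      exact Equiv.sum_comp (finRotate (p ^ k)) (fun j => wt (f j)))]
  have h2 : ∀ i : St B, (T (∑ _j : Fin (p ^ k), wt i) * dF (ZMod p) ^ lam m (seqw (fun _ : Fin (p ^ k) => i)) :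
      (ZMod p)[T;T⁻¹]) = (T (wt i) * dF (ZMod p) ^ ine m (gw i)) ^ (p ^ k) * dF (ZMod p) ^ ess m (gw i) := by
    intro i
    rw [lam_const hB hq i, mul_pow, T_pow, ← pow_mul, Finset.sum_const, Finset.card_univ,
      Fintype.card_fin, pow_add, nsmul_eq_mul, mul_comm (p ^ k) (ine m (gw i))]
    push_cast
    ring
  rw [Finset.sum_congr rfl (fun i _ => h2 i)]
  have hmaps : ∀ i ∈ (univ : Finset (St B)), ess m (gw i) ∈ SS m := by
    intro i _
    unfold SS
    obtain ⟨h3, h4, _⟩ := ess_ine (gw i) (gw_mem hB i)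
    rw [Finset.mem_filter, Finset.mem_range]
    exact ⟨by omega, h4⟩
  rw [← Finset.sum_fiberwise_of_maps_to hmaps]
  refine Finset.sum_congr rfl fun s _ => ?_
  unfold cc
  rw [sum_pow_char_pow, Finset.sum_mul]
  refine Finset.sum_congr rfl fun i hi => ?_
  rw [Finset.mem_filter] at hi
  rw [hi.2]

theorem cc_res (p : ℕ) [Fact p.Prime] (B : List (Bool × ℕ)) (hB : ∀ x ∈ B, x.2 + 1 < m) (s : ℕ) :
    Res4 (cc p m B s) (expo B) := by
  unfold cc
  apply Res4.sum
  intro i _
  have h1 := (res4_T (F := ZMod p) (wt i)).mul ((res4_dF (F := ZMod p)).pow (ine m (gw i)))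
  refine h1.congr ?_
  obtain ⟨k, hk⟩ := terms_mod B _ (List.getElem_mem i.2)
  have h2 : wt i + 2 * ((gw i).length : ℤ) = expo B + 4 * k := hk
  obtain ⟨_, _, _, h3, _⟩ := ess_ine (gw i) (gw_mem hB i)
  omega

theorem cc_top (p : ℕ) [Fact p.Prime] (B : List (Bool × ℕ)) (hB : ∀ x ∈ B, x.2 + 1 < m) :
    cc p m B m = T (expo B) := by
  unfold cc
  have h1 : (univ : Finset (St B)).filter (fun i => ess m (gw i) = m) =
      (univ : Finset (St B)).filter (fun i => gw i = []) := by
    ext i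
    simp only [Finset.mem_filter, Finset.mem_univ, true_and]
    constructor
    · intro h
      exact (ess_ine (gw i) (gw_mem hB i)).2.2.1 h
    · intro h
      rw [h]
      exact (ess_nil m).1
  rw [h1, Finset.sum_filter]
  have h2 : ∀ i : St B, (if gw i = [] then T (wt i) * dF (ZMod p) ^ ine m (gw i) else 0 : (ZMod p)[T;T⁻¹]) =
      (fun t : ℤ × List ℕ => if t.2 = [] then (T t.1 : (ZMod p)[T;T⁻¹]) else 0) (terms B)[i] := by
    intro i
    simp only
    by_cases h : gw i = []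
    · rw [if_pos h, h, (ess_nil m).2, pow_zero, mul_one]
      have h' : ((terms B)[i]).2 = [] := h
      rw [if_pos h']
      rfl
    · have h' : ¬ ((terms B)[i]).2 = [] := h
      rw [if_neg h, if_neg h']
  rw [Finset.sum_congr rfl (fun i _ => h2 i)]
  have h3 : ∑ i : St B, (fun t : ℤ × List ℕ => if t.2 = [] then (T t.1 : (ZMod p)[T;T⁻¹]) else 0) (terms B)[i] =
      ((terms B).map (fun t : ℤ × List ℕ => if t.2 = [] then (T t.1 : (ZMod p)[T;T⁻¹]) else 0)).sum :=
    Fin.sum_univ_fun_getElem (terms B)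
      (fun t : ℤ × List ℕ => if t.2 = [] then (T t.1 : (ZMod p)[T;T⁻¹]) else 0)
  rw [h3]
  have h4 : ∀ l : List (ℤ × List ℕ),
      (l.map (fun t : ℤ × List ℕ => if t.2 = [] then (T t.1 : (ZMod p)[T;T⁻¹]) else 0)).sum =
      ((l.filter (fun t : ℤ × List ℕ => t.2 = [])).map (fun t => (T t.1 : (ZMod p)[T;T⁻¹]))).sum := by
    intro l
    induction l with
    | nil => rfl
    | cons a l ih =>
      by_cases ha : a.2 = []
      · rw [List.filter_cons_of_pos (by simpa using ha), List.map_cons, List.sum_cons, ih,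
          List.map_cons, List.sum_cons, if_pos ha]
      · rw [List.filter_cons_of_neg (by simpa using ha), ← ih, List.map_cons, List.sum_cons,
          if_neg ha, zero_add]
  rw [h4, terms_nil]
  simp

theorem coeff_T_mul (n k : ℤ) (f : ℤ[T;T⁻¹]) : (T n * f).coeff k = f.coeff (k - n) := by
  unfold T
  rw [AddMonoidAlgebra.coeff_single_mul_eq_mul_coeff (k - n), one_mul]
  intro a _
  omega

theorem coeff_dl_mul (n : ℤ) (f : ℤ[T;T⁻¹]) : (dl * f).coeff n = -f.coeff (n-2) - f.coeff (n+2) := by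
  unfold dl
  rw [sub_mul, neg_mul]
  have h1 : (-(T 2 * f) - T (-2) * f).coeff n = -(T 2 * f).coeff n - (T (-2) * f).coeff n := by
    simp
  rw [h1, coeff_T_mul, coeff_T_mul, sub_neg_eq_add]

/-- The span estimate for the bracket. -/
theorem span_bracket (hm : 0 < m) (p : ℕ) [Fact p.Prime] (k : ℕ) (hq : m / 2 < p ^ k)
    (B : List (Bool × ℕ)) (hB : ∀ x ∈ B, x.2 + 1 < m) (W : List (Bool × ℕ))
    (hW : ∀ x ∈ W, x.2 + 1 < m)
    (hWB : ∀ (A : ℂ) (N : ℕ), MR A m N W = (MR A m N B) ^ (p ^ k))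
    (hexp : expo W = (p ^ k : ℕ) * expo B) :
    (∃ a, expo W + 2 * ((m : ℤ) - 1) ≤ a ∧ (draw (braidClosure m) W).close.bracket.coeff a ≠ 0) ∧
    (∃ a, a ≤ expo W - 2 * ((m : ℤ) - 1) ∧ (draw (braidClosure m) W).close.bracket.coeff a ≠ 0) := by
  have hF := modp_formula hm p k B hB W hW hWB
  have hS : ∀ s ∈ SS m, s ≤ m ∧ s % 2 = m % 2 := by
    intro s hs
    unfold SS at hs
    rw [Finset.mem_filter, Finset.mem_range] at hs
    exact ⟨by omega, hs.2⟩
  have hmS : m ∈ SS m := by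
    unfold SS
    rw [Finset.mem_filter, Finset.mem_range]
    exact ⟨by omega, rfl⟩
  obtain ⟨n1, h1, h2⟩ := top_powers hq (expo B) (cc p m B) (cc_res p B hB) (SS m) hS hmS (cc_top p B hB)
  obtain ⟨n2, h3, h4⟩ := bot_powers hq (expo B) (cc p m B) (cc_res p B hB) (SS m) hS hmS (cc_top p B hB)
  rw [← hF] at h2 h4
  have h5 := red_coeff p _ n1 h2
  have h6 := red_coeff p _ n2 h4
  rw [coeff_dl_mul] at h5 h6
  rw [← hexp] at h1 h3
  constructor
  · by_cases h7 : (draw (braidClosure m) W).close.bracket.coeff (n1 - 2) = 0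
    · refine ⟨n1 + 2, by linarith, fun h8 => ?_⟩
      rw [h7, h8] at h5
      simp at h5
    · exact ⟨n1 - 2, by linarith, h7⟩
  · by_cases h7 : (draw (braidClosure m) W).close.bracket.coeff (n2 + 2) = 0
    · refine ⟨n2 - 2, by linarith, fun h8 => ?_⟩
      rw [h7, h8] at h6
      simp at h6
    · exact ⟨n2 + 2, by linarith, h7⟩

/-! ### powers of braid words -/

theorem toL_pow {l : ℕ} (n : ℕ) (w : Fin l → Letter m) :
    toL (fun i : Fin (n * l) => w i.modNat) = (List.replicate n (toL w)).flatten := by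
  unfold toL
  rw [List.ofFn_mul]
  congr 1
  rw [← List.ofFn_const]
  congr 1
  funext i
  congr 1
  funext j
  have : (⟨(i : ℕ) * l + j, by
      have h1 := i.2; have h2 := j.2
      calc (i : ℕ) * l + j < i * l + l := by omega
        _ = (i + 1) * l := by ring
        _ ≤ n * l := Nat.mul_le_mul_right _ h1⟩ : Fin (n * l)).modNat = j := by
    apply Fin.ext
    simp only [Fin.modNat]
    rw [Nat.add_comm, Nat.add_mul_mod_self_right, Nat.mod_eq_of_lt j.2]
  simp only [this]

theorem MR_append (A : ℂ) (N : ℕ) (w w' : List (Bool × ℕ)) :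
    MR A m N (w ++ w') = MR A m N w * MR A m N w' := by simp [MR]

theorem MR_replicate (A : ℂ) (N n : ℕ) (w : List (Bool × ℕ)) :
    MR A m N (List.replicate n w).flatten = (MR A m N w) ^ n := by
  induction n with
  | zero => simp [MR]
  | succ n ih => rw [List.replicate_succ, List.flatten_cons, MR_append, ih, pow_succ']

theorem expo_replicate (n : ℕ) (w : List (Bool × ℕ)) :
    expo (List.replicate n w).flatten = n * expo w := by
  rw [expo_flatten, List.map_replicate, List.sum_replicate, nsmul_eq_mul]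

theorem power_span (hm : 0 < m) (p : ℕ) (hp : p.Prime) (k n : ℕ) (hq : m / 2 < p ^ k)
    (hdvd : p ^ k ∣ n) {l : ℕ} (w : Fin l → Letter m) :
    (diagram (braidClosure m) (fun i : Fin (n * l) => w i.modNat)).writhe = n * expo (toL w) ∧
    (∃ a, n * expo (toL w) + 2 * ((m : ℤ) - 1) ≤ a ∧
      (diagram (braidClosure m) (fun i : Fin (n * l) => w i.modNat)).bracket.coeff a ≠ 0) ∧
    (∃ a, a ≤ n * expo (toL w) - 2 * ((m : ℤ) - 1) ∧
      (diagram (braidClosure m) (fun i : Fin (n * l) => w i.modNat)).bracket.coeff a ≠ 0) := by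
  have : Fact p.Prime := ⟨hp⟩
  obtain ⟨n', rfl⟩ := hdvd
  have hmem := toL_mem w
  have hmemW := toL_mem (fun i : Fin (p ^ k * n' * l) => w i.modNat)
  have hB : ∀ x ∈ (List.replicate n' (toL w)).flatten, x.2 + 1 < m := by
    intro x hx
    rw [List.mem_flatten] at hx
    obtain ⟨L, hL, hx⟩ := hx
    rw [List.mem_replicate] at hL
    rw [hL.2] at hx
    exact hmem x hx
  have hE : expo (toL (fun i : Fin (p ^ k * n' * l) => w i.modNat)) = (p ^ k * n' : ℕ) * expo (toL w) := by
    rw [toL_pow, expo_replicate]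
  have hwr : (diagram (braidClosure m) (fun i : Fin (p ^ k * n' * l) => w i.modNat)).writhe =
      (p ^ k * n' : ℕ) * expo (toL w) := by
    unfold diagram
    rw [close_writhe, (draw_up _ (braidClosure m) hmemW (fun _ => rfl)).2, hE]
    have : owr (braidClosure m) = 0 := rfl
    rw [this, zero_add]
  obtain ⟨h1, h2⟩ := span_bracket hm p k hq (List.replicate n' (toL w)).flatten hB
    (toL (fun i : Fin (p ^ k * n' * l) => w i.modNat)) hmemW (by
      intro A N
      rw [toL_pow, MR_replicate, MR_replicate, ← pow_mul, mul_comm n']) (by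
      rw [hE, expo_replicate]
      push_cast
      ring)
  rw [hE] at h1 h2
  exact ⟨hwr, h1, h2⟩

theorem exists_prime_pow {n M : ℕ} (h : ¬ n ∣ (Finset.Icc 1 M).lcm id) :
    ∃ p k : ℕ, p.Prime ∧ M < p ^ k ∧ p ^ k ∣ n := by
  rw [Nat.dvd_iff_prime_pow_dvd_dvd] at h
  push Not at h
  obtain ⟨p, k, hp, h1, h2⟩ := h
  refine ⟨p, k, hp, ?_, h1⟩
  by_contra hcon
  push Not at hcon
  apply h2
  have : p ^ k ∈ Finset.Icc 1 M := Finset.mem_Icc.2 ⟨Nat.one_le_iff_ne_zero.2 (pow_ne_zero k hp.ne_zero), hcon⟩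
  exact Finset.dvd_lcm this

theorem fPoly_coeff {P : Type} (D : Diagram P) (a : ℤ) (h : D.bracket.coeff a ≠ 0) :
    D.fPoly.coeff (a - 3 * D.writhe) ≠ 0 := by
  unfold Diagram.fPoly
  have h1 : (T (-3 * D.writhe) * D.bracket).coeff (a - 3 * D.writhe) = D.bracket.coeff a := by
    rw [coeff_T_mul]
    congr 1
    ring
  split_ifs
  · rw [one_mul, h1]
    exact h
  · have h2 : (-1 * T (-3 * D.writhe) * D.bracket : ℤ[T;T⁻¹]) = -(T (-3 * D.writhe) * D.bracket) := by ring
    rw [h2]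
    have h3 : (-(T (-3 * D.writhe) * D.bracket)).coeff (a - 3 * D.writhe) =
      -(T (-3 * D.writhe) * D.bracket).coeff (a - 3 * D.writhe) := by simp
    rw [h3, h1]
    exact neg_ne_zero.2 h

end main

end Pool.Agent.TH561
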