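import Pool.Agent.W639.RB.Main
import Pool.Agent.TH561.PB.Mat

/-!
# The bracket of the closure of a power of a braid as a sum over cyclic sequences of states
-/

set_option autoImplicit false

namespace Pool.Agent.TH561

open Pool.Agent.H891R2.Jones Pool.Agent.W639.RB Finset LaurentPolynomial

section state

variable {m N : ℕ}

/-- the sign of a letter -/
def sgn (x : Bool × ℕ) : ℤ := if x.1 then 1 else -1

theorem expo_cons (x : Bool × ℕ) (w : List (Bool × ℕ)) : expo (x :: w) = sgn x + expo w := by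
  simp [expo, sgn]

/-- the matrix of a letter -/
noncomputable def ML (A : ℂ) (m N : ℕ) (x : Bool × ℕ) : Matrix (Fin m → Fin N) (Fin m → Fin N) ℂ :=
  A ^ (sgn x) • (1 : Matrix (Fin m → Fin N) (Fin m → Fin N) ℂ) + A ^ (-sgn x) • KK m N x.2

/-- the matrix of a word -/
noncomputable def MR (A : ℂ) (m N : ℕ) (w : List (Bool × ℕ)) :
    Matrix (Fin m → Fin N) (Fin m → Fin N) ℂ := (w.map (ML A m N)).prod

theorem lt_of (A : ℂ) (x : Bool × ℕ) (hx : x.2 + 1 < m)
    (g : (Fin m → Fin N) → ((Fin m → Fin N) → ℂ)) :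
    Matrix.of (lt A m N x g) = ML A m N x * Matrix.of g := by
  have h := ee_of (N := N) x.2 hx g
  have h1 : ∀ B : ℂ, Matrix.of (sg B (ee m N ((Fin m → Fin N) → ℂ)) x.2 g) =
      (B • (1 : Matrix (Fin m → Fin N) (Fin m → Fin N) ℂ) + B⁻¹ • KK m N x.2) * Matrix.of g := by
    intro B
    rw [add_mul, smul_mul_assoc, smul_mul_assoc, one_mul, ← h]
    rfl
  obtain ⟨b, i⟩ := x
  cases b
  · have h2 : lt A m N (false, i) = sg A⁻¹ (ee m N ((Fin m → Fin N) → ℂ)) i := by simp [lt]
    rw [h2]
    have h3 := h1 A⁻¹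
    simp only at h3
    rw [h3]
    simp [ML, sgn]
  · have h2 : lt A m N (true, i) = sg A (ee m N ((Fin m → Fin N) → ℂ)) i := by simp [lt]
    rw [h2]
    have h3 := h1 A
    simp only at h3
    rw [h3]
    simp [ML, sgn]

theorem rho_of (A : ℂ) (w : List (Bool × ℕ)) (hw : ∀ x ∈ w, x.2 + 1 < m)
    (g : (Fin m → Fin N) → ((Fin m → Fin N) → ℂ)) :
    Matrix.of (rho A m N w g) = MR A m N w * Matrix.of g := by
  induction w with
  | nil => simp [rho, MR]
  | cons x w ih =>
    have h1 : rho A m N (x :: w) = lt A m N x * rho A m N w := by simp [rho]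
    have h2 : MR A m N (x :: w) = ML A m N x * MR A m N w := by simp [MR]
    rw [h1, h2, Module.End.mul_apply, lt_of A x (hw x List.mem_cons_self),
      ih (fun y hy => hw y (List.mem_cons_of_mem _ hy)), mul_assoc]

/-- the states of a word: weight and word of the generators `e i` -/
def terms : List (Bool × ℕ) → List (ℤ × List ℕ)
  | [] => [(0, [])]
  | x :: w => (terms w).map (fun t => (sgn x + t.1, t.2)) ++
      (terms w).map (fun t => (-sgn x + t.1, x.2 :: t.2))

theorem terms_mem (w : List (Bool × ℕ)) (hw : ∀ x ∈ w, x.2 + 1 < m) :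
    ∀ t ∈ terms w, ∀ i ∈ t.2, i + 1 < m := by
  induction w with
  | nil => intro t ht; simp [terms] at ht; subst ht; simp
  | cons x w ih =>
    intro t ht
    rw [terms, List.mem_append, List.mem_map, List.mem_map] at ht
    rcases ht with ⟨u, hu, rfl⟩ | ⟨u, hu, rfl⟩
    · exact ih (fun y hy => hw y (List.mem_cons_of_mem _ hy)) u hu
    · intro i hi
      rcases List.mem_cons.1 hi with rfl | hi
      · exact hw x List.mem_cons_self
      · exact ih (fun y hy => hw y (List.mem_cons_of_mem _ hy)) u hu i hi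

theorem sgn_cases (x : Bool × ℕ) : sgn x = 1 ∨ sgn x = -1 := by
  unfold sgn; split_ifs <;> simp

theorem terms_mod (w : List (Bool × ℕ)) :
    ∀ t ∈ terms w, ∃ k : ℤ, t.1 + 2 * (t.2.length : ℤ) = expo w + 4 * k := by
  induction w with
  | nil => intro t ht; simp [terms] at ht; subst ht; exact ⟨0, by simp [expo]⟩
  | cons x w ih =>
    intro t ht
    rw [terms, List.mem_append, List.mem_map, List.mem_map] at ht
    rw [expo_cons]
    rcases ht with ⟨u, hu, rfl⟩ | ⟨u, hu, rfl⟩
    · obtain ⟨k, hk⟩ := ih u hu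
      exact ⟨k, by simp only; linarith⟩
    · obtain ⟨k, hk⟩ := ih u hu
      simp only [List.length_cons]
      push_cast
      rcases sgn_cases x with h | h
      · exact ⟨k, by rw [h]; linarith⟩
      · exact ⟨k + 1, by rw [h]; linarith⟩

/-- there is exactly one state without generators -/
theorem terms_nil (w : List (Bool × ℕ)) :
    (terms w).filter (fun t : ℤ × List ℕ => t.2 = []) = [(expo w, [])] := by
  induction w with
  | nil => simp [terms, expo]
  | cons x w ih =>
    rw [terms, List.filter_append, List.filter_map, List.filter_map, expo_cons]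
    have h1 : ((fun t : ℤ × List ℕ => decide (t.2 = [])) ∘ fun t : ℤ × List ℕ => (-sgn x + t.1, x.2 :: t.2)) =
        fun _ => false := by
      funext t; simp
    have h2 : ((fun t : ℤ × List ℕ => decide (t.2 = [])) ∘ fun t : ℤ × List ℕ => (sgn x + t.1, t.2)) =
        fun t : ℤ × List ℕ => decide (t.2 = []) := by
      funext t; simp
    rw [h1, h2, ih]
    simp

theorem MR_terms {A : ℂ} (hA : A ≠ 0) (w : List (Bool × ℕ)) :
    MR A m N w = ((terms w).map (fun t : ℤ × List ℕ => A ^ t.1 • WP (KK m N) t.2)).sum := by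
  induction w with
  | nil => simp [MR, terms]
  | cons x w ih =>
    have h2 : MR A m N (x :: w) = ML A m N x * MR A m N w := by simp [MR]
    rw [h2, ih, terms, List.map_append, List.sum_append, List.map_map, List.map_map, ML, add_mul]
    congr 1
    · rw [smul_mul_assoc, one_mul, List.smul_sum, List.map_map]
      congr 1
      apply List.map_congr_left
      intro t _
      simp only [Function.comp_apply]
      rw [smul_smul, zpow_add₀ hA]
    · rw [smul_mul_assoc, ← List.sum_map_mul_left, List.smul_sum, List.map_map]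
      congr 1
      apply List.map_congr_left
      intro t _
      simp only [Function.comp_apply]
      rw [mul_smul_comm, smul_smul, zpow_add₀ hA, WP_cons]

/-- the states as a type -/
abbrev St (w : List (Bool × ℕ)) : Type := Fin (terms w).length

/-- weight of a state -/
def wt {w : List (Bool × ℕ)} (i : St w) : ℤ := ((terms w)[i]).1

/-- the word of the generators of a state -/
def gw {w : List (Bool × ℕ)} (i : St w) : List ℕ := ((terms w)[i]).2

theorem MR_sum {A : ℂ} (hA : A ≠ 0) (w : List (Bool × ℕ)) :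
    MR A m N w = ∑ i : St w, A ^ wt i • WP (KK m N) (gw i) := by
  rw [MR_terms hA, ← Fin.sum_univ_fun_getElem (terms w) (fun t : ℤ × List ℕ => A ^ t.1 • WP (KK m N) t.2)]
  rfl

theorem sum_pow_ofFn {R : Type*} [Semiring R] {I : Type*} [Fintype I] (x : I → R) :
    ∀ n : ℕ, (∑ i, x i) ^ n = ∑ f : Fin n → I, (List.ofFn (fun j => x (f j))).prod
  | 0 => by simp
  | n+1 => by
    rw [pow_succ', sum_pow_ofFn x n, Finset.sum_mul_sum,
      ← (Fin.consEquiv (fun _ : Fin (n+1) => I)).sum_comp, Fintype.sum_prod_type]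
    refine Finset.sum_congr rfl fun i _ => Finset.sum_congr rfl fun f _ => ?_
    rw [List.ofFn_succ, List.prod_cons]
    rfl

theorem prod_smul_ofFn {R : Type*} [Ring R] [Algebra ℂ R] : ∀ (n : ℕ) (c : Fin n → ℂ) (x : Fin n → R),
    (List.ofFn (fun j => c j • x j)).prod = (∏ j, c j) • (List.ofFn x).prod
  | 0, _, _ => by simp
  | n+1, c, x => by
    rw [List.ofFn_succ, List.prod_cons, prod_smul_ofFn n, List.ofFn_succ, List.prod_cons,
      Fin.prod_univ_succ, smul_mul_smul_comm]

/-- the word of a sequence of states -/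
def seqw {w : List (Bool × ℕ)} {q : ℕ} (f : Fin q → St w) : List ℕ :=
  (List.ofFn (fun j => gw (f j))).flatten

theorem MR_pow {A : ℂ} (hA : A ≠ 0) (w : List (Bool × ℕ)) (q : ℕ) :
    (MR A m N w) ^ q = ∑ f : Fin q → St w, A ^ (∑ j, wt (f j)) • WP (KK m N) (seqw f) := by
  rw [MR_sum hA, sum_pow_ofFn]
  refine Finset.sum_congr rfl fun f _ => ?_
  rw [prod_smul_ofFn, zpow_sum _ hA]
  congr 1
  unfold seqw
  rw [WP_flatten, List.map_ofFn]
  rfl

theorem seqw_mem {w : List (Bool × ℕ)} (hw : ∀ x ∈ w, x.2 + 1 < m) {q : ℕ} (f : Fin q → St w) :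
    ∀ i ∈ seqw f, i + 1 < m := by
  intro i hi
  unfold seqw at hi
  rw [List.mem_flatten] at hi
  obtain ⟨l, hl, hi⟩ := hi
  rw [List.mem_ofFn] at hl
  obtain ⟨j, rfl⟩ := hl
  exact terms_mem w hw _ (List.getElem_mem _) i hi

theorem gw_mem {w : List (Bool × ℕ)} (hw : ∀ x ∈ w, x.2 + 1 < m) (i : St w) :
    ∀ k ∈ gw i, k + 1 < m := terms_mem w hw _ (List.getElem_mem _)

open Classical in
/-- the number of essential curves of the closure of a word -/
noncomputable def ess (m : ℕ) (L : List ℕ) : ℕ :=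
  if h : ∀ i ∈ L, i + 1 < m then (trace_pow m L h).choose else 0

open Classical in
/-- the number of inessential curves of the closure of a word -/
noncomputable def ine (m : ℕ) (L : List ℕ) : ℕ :=
  if h : ∀ i ∈ L, i + 1 < m then (trace_pow m L h).choose_spec.choose else 0

theorem ess_ine (L : List ℕ) (h : ∀ i ∈ L, i + 1 < m) :
    ess m L ≤ m ∧ ess m L % 2 = m % 2 ∧ (ess m L = m → L = []) ∧ L.length % 2 = ine m L % 2 ∧
      ∀ N : ℕ, N ≠ 0 → ∀ q, 1 ≤ q →
        Matrix.trace ((WP (KK m N) L) ^ q) = (N : ℂ) ^ (ess m L + q * ine m L) := by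
  unfold ess ine
  rw [dif_pos h, dif_pos h]
  exact (trace_pow m L h).choose_spec.choose_spec

/-- the number of closed curves -/
noncomputable def lam (m : ℕ) (L : List ℕ) : ℕ := ess m L + ine m L

theorem trace_lam (L : List ℕ) (h : ∀ i ∈ L, i + 1 < m) {N : ℕ} (hN : N ≠ 0) :
    Matrix.trace (WP (KK m N) L) = (N : ℂ) ^ lam m L := by
  have := (ess_ine L h).2.2.2.2 N hN 1 le_rfl
  rw [pow_one, one_mul] at this
  exact this

theorem lam_eq {L L' : List ℕ} (h : ∀ i ∈ L, i + 1 < m) (h' : ∀ i ∈ L', i + 1 < m)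
    (ht : Matrix.trace (WP (KK m 2) L) = Matrix.trace (WP (KK m 2) L')) : lam m L = lam m L' := by
  rw [trace_lam L h (by norm_num), trace_lam L' h' (by norm_num)] at ht
  have h2 : (2 : ℕ) ^ lam m L = 2 ^ lam m L' := by exact_mod_cast ht
  exact Nat.pow_right_injective le_rfl h2

theorem ess_nil (m : ℕ) : ess m [] = m ∧ ine m [] = 0 := by
  have h := ess_ine (m := m) [] (by simp)
  have h1 := h.2.2.2.2 2 (by norm_num) 1 le_rfl
  have h2 := h.2.2.2.2 2 (by norm_num) 2 (by norm_num)
  have h3 : Matrix.trace (1 : Matrix (Fin m → Fin 2) (Fin m → Fin 2) ℂ) = ((2:ℕ):ℂ) ^ m := by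
    rw [Matrix.trace_one]; simp
  rw [WP_nil, one_pow, h3] at h1 h2
  have h4 : (2 : ℕ) ^ m = 2 ^ (ess m [] + 1 * ine m []) := by exact_mod_cast h1
  have h5 : (2 : ℕ) ^ m = 2 ^ (ess m [] + 2 * ine m []) := by exact_mod_cast h2
  have h6 := Nat.pow_right_injective le_rfl h4
  have h7 := Nat.pow_right_injective le_rfl h5
  omega

/-- the loop value -/
noncomputable def dl : ℤ[T;T⁻¹] := -T 2 - T (-2)

theorem ev_dl (N : ℕ) (hN : 3 ≤ N) : ev N hN dl = (N : ℂ) := by
  unfold dl
  rw [map_sub, map_neg, ev_T, ev_T, Ar_d N hN, inv_pow]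
  rfl

/-- the bracket of the closure of a braid word whose matrix is the `q`-th power of the matrix of
the word `B` -/
theorem bracket_formula (hm : 0 < m) (B : List (Bool × ℕ)) (hB : ∀ x ∈ B, x.2 + 1 < m) (q : ℕ)
    (W : List (Bool × ℕ)) (hW : ∀ x ∈ W, x.2 + 1 < m)
    (hWB : ∀ (A : ℂ) (N : ℕ), MR A m N W = (MR A m N B) ^ q) :
    dl * (draw (braidClosure m) W).close.bracket =
      ∑ f : Fin q → St B, T (∑ j, wt (f j)) * dl ^ lam m (seqw f) := by
  rw [← sub_eq_zero]
  by_contra hne
  obtain ⟨N, hN, hev⟩ := exists_ev_ne _ hne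
  apply hev
  rw [map_sub, sub_eq_zero, map_mul, ev_dl]
  have : Nonempty (draw (braidClosure m) W).P := ⟨(draw (braidClosure m) W).lower ⟨0, hm⟩⟩
  rw [ev_bracket N hN, Z_close, Zg_draw _ _ hW]
  have h1 : Zg (Ar N) N (braidClosure m) (rho (Ar N) m N W (fun x y => ind (x = y))) =
      Matrix.trace (MR (Ar N) m N W) := by
    have h2 := rho_of (m := m) (N := N) (Ar N) W hW (fun x y => ind (x = y))
    rw [delta_eq, mul_one] at h2
    rw [← h2]
    unfold Zg Matrix.trace
    refine Finset.sum_congr rfl fun u _ => ?_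
    unfold WW braidClosure
    simp
  rw [h1, hWB, MR_pow (Ar_ne N hN), Matrix.trace_sum, map_sum]
  refine Finset.sum_congr rfl fun f _ => ?_
  rw [Matrix.trace_smul, trace_lam _ (seqw_mem hB f) (by omega), map_mul, map_pow, ev_dl, ev_T,
    smul_eq_mul]

end state

end Pool.Agent.TH561
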