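import Pool.Agent.TH561.PB.State2

/-!
# The Jones polynomials of closures of powers of braids followed by full twists
-/

set_option autoImplicit false

namespace Pool.Agent.TH561

open Pool.Agent.H891R2.Jones Pool.Agent.W639.RB Finset LaurentPolynomial

section bd

variable {F : Type*} [Field F]

/-- no exponents larger than `t` -/
def Bd (f : F[T;T⁻¹]) (t : ℤ) : Prop := ∀ n, t < n → f.coeff n = 0

theorem Top.bd {f : F[T;T⁻¹]} {t : ℤ} (h : Top f t) : Bd f t := h.2

theorem Bd.mono {f : F[T;T⁻¹]} {t u : ℤ} (h : Bd f t) (htu : t ≤ u) : Bd f u :=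
  fun n hn => h n (by omega)

theorem bd_list_sum {α : Type*} (l : List α) (f : α → F[T;T⁻¹]) (t : ℤ) (h : ∀ x ∈ l, Bd (f x) t) :
    Bd (l.map f).sum t := by
  induction l with
  | nil => intro n _; simp
  | cons a l ih =>
    intro n hn
    rw [List.map_cons, List.sum_cons, AddMonoidAlgebra.coeff_add, Finsupp.add_apply,
      h a List.mem_cons_self n hn, ih (fun x hx => h x (List.mem_cons_of_mem _ hx)) n hn, add_zero]

theorem Top.add_bd {f g : F[T;T⁻¹]} {t u : ℤ} (h : Top f t) (hg : Bd g u) (hu : u < t) : Top (f + g) t := by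
  constructor
  · rw [AddMonoidAlgebra.coeff_add, Finsupp.add_apply, hg t hu, add_zero]
    exact h.1
  · intro n hn
    rw [AddMonoidAlgebra.coeff_add, Finsupp.add_apply, h.2 n hn, hg n (by omega), add_zero]

theorem Top.unique {f : F[T;T⁻¹]} {t u : ℤ} (h : Top f t) (h' : Top f u) : t = u := by
  rcases lt_trichotomy t u with g | g | g
  · exact absurd (h.2 _ g) h'.1
  · exact g
  · exact absurd (h'.2 _ g) h.1

theorem sum_top' {ι : Type*} (S : Finset ι) (f : ι → F[T;T⁻¹]) (t : ι → ℤ)
    (h : ∀ i ∈ S, f i = 0 ∨ Top (f i) (t i))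
    (hinj : ∀ i ∈ S, ∀ j ∈ S, f i ≠ 0 → f j ≠ 0 → t i = t j → i = j)
    {i0 : ι} (hi0 : i0 ∈ S) (h0 : f i0 ≠ 0) :
    ∃ i1 ∈ S, f i1 ≠ 0 ∧ t i0 ≤ t i1 ∧ Top (∑ i ∈ S, f i) (t i1) := by
  classical
  obtain ⟨i1, hi1, hmax⟩ := Finset.exists_max_image (S.filter (fun i => f i ≠ 0)) t
    ⟨i0, Finset.mem_filter.2 ⟨hi0, h0⟩⟩
  rw [Finset.mem_filter] at hi1
  have hlt : ∀ j ∈ S, f j ≠ 0 → j ≠ i1 → t j < t i1 := by
    intro j hj hfj hne
    have h4 := hmax j (Finset.mem_filter.2 ⟨hj, hfj⟩)
    rcases lt_or_eq_of_le h4 with h5 | h5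
    · exact h5
    · exact absurd (hinj j hj i1 hi1.1 hfj hi1.2 h5) hne
  refine ⟨i1, hi1.1, hi1.2, hmax i0 (Finset.mem_filter.2 ⟨hi0, h0⟩), ?_, ?_⟩
  · have h1 : Top (f i1) (t i1) := (h i1 hi1.1).resolve_left hi1.2
    have h2 : (∑ i ∈ S, f i).coeff (t i1) = (f i1).coeff (t i1) := by
      rw [AddMonoidAlgebra.coeff_sum, Finset.sum_apply', Finset.sum_eq_single i1]
      · intro j hj hne
        by_cases hfj : f j = 0
        · rw [hfj]; simp
        · exact ((h j hj).resolve_left hfj).2 _ (hlt j hj hfj hne)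
      · intro hn; exact absurd hi1.1 hn
    rw [h2]
    exact h1.1
  · intro n hn
    rw [AddMonoidAlgebra.coeff_sum, Finset.sum_apply']
    apply Finset.sum_eq_zero
    intro j hj
    by_cases hfj : f j = 0
    · rw [hfj]; simp
    · have h3 := hmax j (Finset.mem_filter.2 ⟨hj, hfj⟩)
      exact ((h j hj).resolve_left hfj).2 _ (by omega)

/-- the largest exponent of `psi` -/
def tps (a m s : ℕ) : ℤ := 2 * s - 3 * a * (m - s) + a * (s * (s - 1)) + 2 * m

theorem top_twist {q m a : ℕ} (hm : 2 ≤ m) (ha : 1 ≤ a) (hq : 3 * a * m ^ 2 + 2 < 2 * q) (ω : ℤ)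
    (c : ℕ → F[T;T⁻¹]) (hc : ∀ s, Res4 (c s) ω) (ψ : ℕ → F[T;T⁻¹])
    (S : Finset ℕ) (hS : ∀ s ∈ S, s ≤ m ∧ s % 2 = m % 2) (hmS : m ∈ S)
    (hψ : ∀ s ∈ S, Top (ψ s) (tps a m s)) (hcm : c m = T ω) :
    ∃ t, Top (∑ s ∈ S, (c s) ^ q * ψ s) t ∧ q * ω + a * (m * (m - 1)) + 4 * m ≤ t ∧
      t ≠ 3 * (q * ω + a * (m * (m - 1))) + 2 * (m + 1) := by
  classical
  have ht : ∀ s, ∃ t, c s ≠ 0 → Top (c s) t := by
    intro s
    by_cases h : c s = 0
    · exact ⟨0, fun h' => absurd h h'⟩
    · obtain ⟨t, ht⟩ := exists_top (c s) h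
      exact ⟨t, fun _ => ht⟩
  choose t ht using ht
  have hq0 : q ≠ 0 := by omega
  have hne : ∀ s, (c s) ^ q * ψ s ≠ 0 → c s ≠ 0 := by
    intro s h h'
    apply h
    rw [h', zero_pow hq0, zero_mul]
  have htop : ∀ s ∈ S, c s ≠ 0 → Top ((c s) ^ q * ψ s) (q * t s + tps a m s) := fun s hs hcs =>
    ((ht s hcs).pow q).mul (hψ s hs)
  have hcm0 : c m ≠ 0 := by rw [hcm]; exact (top_T ω).ne_zero
  have htm : t m = ω := by
    have h1 := ht m hcm0
    rw [hcm] at h1
    exact h1.unique (top_T ω)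
  have hres : ∀ s, c s ≠ 0 → ∃ k, t s = ω + 4 * k := by
    intro s hs
    obtain ⟨k, hk⟩ := hc s (t s) (ht s hs).1
    exact ⟨k, by linarith⟩
  have hmZ : (2 : ℤ) ≤ m := by exact_mod_cast hm
  have haZ : (1 : ℤ) ≤ a := by exact_mod_cast ha
  have hqZ : 3 * (a : ℤ) * m ^ 2 + 2 < 2 * q := by exact_mod_cast hq
  have ham : (m : ℤ) ≤ a * m := by nlinarith
  have ham2 : 2 * ((a : ℤ) * m) ≤ a * m ^ 2 := by nlinarith
  have key : ∀ i j : ℕ, i ∈ S → j ∈ S → i < j → ∀ k1 k2 : ℤ,
      (q : ℤ) * (ω + 4 * k1) + tps a m i = q * (ω + 4 * k2) + tps a m j → False := by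
    intro i j hi hj hij k1 k2 h
    have hi' := hS i hi
    have hj' := hS j hj
    have hiZ : (0 : ℤ) ≤ i := by positivity
    have hijZ : (i : ℤ) + 1 ≤ j := by exact_mod_cast hij
    have hjm : (j : ℤ) ≤ m := by exact_mod_cast hj'.1
    unfold tps at h
    have h1 : (4 * q : ℤ) * (k1 - k2) = (j - i) * (a * (j + i + 2) + 2) := by
      linear_combination h
    have h2 : (0 : ℤ) < (j - i) * (a * (j + i + 2) + 2) := by
      apply mul_pos
      · linarith
      · have : (0 : ℤ) ≤ a * (j + i + 2) := by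
          apply mul_nonneg
          · linarith
          · linarith
        linarith
    have h3 : ((j : ℤ) - i) * (a * (j + i + 2) + 2) < 4 * q := by
      have e1 : ((j : ℤ) - i) * (a * (j + i + 2) + 2) = a * (j ^ 2 - i ^ 2) + 2 * a * (j - i) + 2 * (j - i) := by
        ring
      have e2 : (a : ℤ) * (j ^ 2 - i ^ 2) ≤ a * m ^ 2 := by
        apply mul_le_mul_of_nonneg_left _ (by linarith)
        nlinarith
      have e3 : (a : ℤ) * (j - i) ≤ a * m := by
        apply mul_le_mul_of_nonneg_left _ (by linarith)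
        linarith
      rw [e1]
      nlinarith
    have hqp : (0 : ℤ) < 4 * q := by omega
    rw [← h1] at h2 h3
    have h4 : 0 < k1 - k2 := by
      by_contra hcon
      push Not at hcon
      nlinarith
    nlinarith
  obtain ⟨i1, hi1, hf1, hle, htopS⟩ := sum_top' S (fun s => (c s) ^ q * ψ s)
    (fun s => q * t s + tps a m s) (by
      intro s hs
      by_cases h : c s = 0
      · left; simp only [h, zero_pow hq0, zero_mul]
      · right; exact htop s hs h) (by
      intro i hi j hj hfi hfj hij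
      obtain ⟨k1, hk1⟩ := hres i (hne i hfi)
      obtain ⟨k2, hk2⟩ := hres j (hne j hfj)
      have h4 : (q : ℤ) * t i + tps a m i = q * t j + tps a m j := hij
      rw [hk1, hk2] at h4
      rcases lt_trichotomy i j with h5 | h5 | h5
      · exact (key i j hi hj h5 k1 k2 h4).elim
      · exact h5
      · exact (key j i hj hi h5 k2 k1 h4.symm).elim) hmS ((htop m hmS hcm0).ne_zero)
  refine ⟨q * t i1 + tps a m i1, htopS, ?_, ?_⟩
  · have h1 : (q : ℤ) * t m + tps a m m ≤ q * t i1 + tps a m i1 := hle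
    rw [htm] at h1
    have h2 : tps a m m = a * (m * (m - 1)) + 4 * m := by unfold tps; ring
    rw [h2] at h1
    linarith
  · intro heq
    obtain ⟨k1, hk1⟩ := hres i1 (hne i1 hf1)
    have hi' := hS i1 hi1
    have hiZ : (0 : ℤ) ≤ i1 := by positivity
    have him : (i1 : ℤ) ≤ m := by exact_mod_cast hi'.1
    rw [hk1] at heq
    unfold tps at heq
    have h1 : (2 * q : ℤ) * (2 * k1 - ω) = 3 * a * m ^ 2 + 2 - 2 * i1 - 2 * a * i1 - a * i1 ^ 2 := by
      linear_combination heq
    have e1 : (a : ℤ) * i1 ≤ a * m := mul_le_mul_of_nonneg_left him (by linarith)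
    have e2 : (a : ℤ) * i1 ^ 2 ≤ a * m ^ 2 := by
      apply mul_le_mul_of_nonneg_left _ (by linarith)
      nlinarith
    have e3 : (0 : ℤ) ≤ a * i1 := mul_nonneg (by linarith) hiZ
    have e4 : (0 : ℤ) ≤ a * i1 ^ 2 := mul_nonneg (by linarith) (by positivity)
    have h2 : 0 < 3 * (a : ℤ) * m ^ 2 + 2 - 2 * i1 - 2 * a * i1 - a * i1 ^ 2 := by nlinarith
    have h3 : 3 * (a : ℤ) * m ^ 2 + 2 - 2 * i1 - 2 * a * i1 - a * i1 ^ 2 < 2 * q := by nlinarith
    have hqp : (0 : ℤ) < 2 * q := by omega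
    rw [← h1] at h2 h3
    have h4 : 0 < 2 * k1 - ω := by
      by_contra hcon
      push Not at hcon
      nlinarith
    nlinarith

end bd

section psi

variable {m : ℕ}

theorem terms_pos (U : List (Bool × ℕ)) (hU : ∀ x ∈ U, x.1 = true) :
    ∀ t ∈ terms U, t.1 = (U.length : ℤ) - 2 * (t.2.length : ℤ) := by
  induction U with
  | nil => intro t ht; simp [terms] at ht; subst ht; simp
  | cons x w ih =>
    intro t ht
    have hx : sgn x = 1 := by simp [sgn, hU x List.mem_cons_self]
    have ih' := ih (fun y hy => hU y (List.mem_cons_of_mem _ hy))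
    rw [terms, List.mem_append, List.mem_map, List.mem_map] at ht
    rcases ht with ⟨u, hu, rfl⟩ | ⟨u, hu, rfl⟩
    · have := ih' u hu
      simp only [List.length_cons]
      push_cast
      rw [hx]
      linarith
    · have := ih' u hu
      simp only [List.length_cons]
      push_cast
      rw [hx]
      linarith

theorem expo_pos (U : List (Bool × ℕ)) (hU : ∀ x ∈ U, x.1 = true) : expo U = U.length := by
  induction U with
  | nil => rfl
  | cons x w ih =>
    have hx : sgn x = 1 := by simp [sgn, hU x List.mem_cons_self]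
    rw [expo_cons, hx, ih (fun y hy => hU y (List.mem_cons_of_mem _ hy))]
    push_cast [List.length_cons]
    ring

/-- the other sign -/
def flipL (x : Bool × ℕ) : Bool × ℕ := (!x.1, x.2)

theorem terms_flip (U : List (Bool × ℕ)) :
    terms (U.map flipL) = (terms U).map (fun t => (-t.1, t.2)) := by
  induction U with
  | nil => simp [terms]
  | cons x w ih =>
    have hx : sgn (flipL x) = -sgn x := by
      obtain ⟨b, i⟩ := x
      cases b <;> simp [sgn, flipL]
    rw [List.map_cons, terms, ih, terms, List.map_append, List.map_map, List.map_map, List.map_map,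
      List.map_map]
    congr 1
    · apply List.map_congr_left
      intro t _
      simp only [Function.comp_apply, hx, Prod.mk.injEq, and_true]
      ring
    · apply List.map_congr_left
      intro t _
      simp only [Function.comp_apply, hx, Prod.mk.injEq]
      refine ⟨by ring, rfl⟩

theorem TW_flip (n k a : ℕ) : (TW true n k a).map flipL = TW false n k a := by
  unfold TW
  rw [List.map_flatten, List.map_replicate, List.map_map]
  rfl

theorem red_SSum (p : ℕ) [Fact p.Prime] (U : List (Bool × ℕ)) : red p (SSum m [] U) =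
    ((terms U).map (fun t : ℤ × List ℕ => (T t.1 * dF (ZMod p) ^ lam m t.2 : (ZMod p)[T;T⁻¹]))).sum := by
  unfold SSum
  rw [map_sum, ← Fin.sum_univ_fun_getElem (terms U)
    (fun t : ℤ × List ℕ => (T t.1 * dF (ZMod p) ^ lam m t.2 : (ZMod p)[T;T⁻¹]))]
  refine Finset.sum_congr rfl fun g _ => ?_
  rw [map_mul, map_pow, red_T, red_dl]
  rfl

theorem lam_nil (m : ℕ) : lam m [] = m := by
  unfold lam
  rw [(ess_nil m).1, (ess_nil m).2]
  rfl

theorem top_SSum (p : ℕ) [Fact p.Prime] (U : List (Bool × ℕ)) (hU : ∀ x ∈ U, x.1 = true)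
    (hUm : ∀ x ∈ U, x.2 + 1 < m) : Top (red p (SSum m [] U)) (U.length + 2 * m) := by
  rw [red_SSum]
  set f : ℤ × List ℕ → (ZMod p)[T;T⁻¹] := fun t => T t.1 * dF (ZMod p) ^ lam m t.2 with hf
  have hsplit : ∀ l : List (ℤ × List ℕ), (l.map f).sum =
      ((l.filter (fun t : ℤ × List ℕ => t.2 = [])).map f).sum +
        ((l.filter (fun t : ℤ × List ℕ => ¬ t.2 = [])).map f).sum := by
    intro l
    induction l with
    | nil => simp
    | cons a l ih =>
      by_cases ha : a.2 = []
      · rw [List.filter_cons_of_pos (by simpa using ha), List.filter_cons_of_neg (by simpa using ha),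
          List.map_cons, List.sum_cons, ih, List.map_cons, List.sum_cons]
        ring
      · rw [List.filter_cons_of_neg (by simpa using ha), List.filter_cons_of_pos (by simpa using ha),
          List.map_cons, List.sum_cons, ih, List.map_cons, List.sum_cons]
        ring
  rw [hsplit, terms_nil]
  have h1 : Top (([(expo U, ([] : List ℕ))].map f).sum) (U.length + 2 * m) := by
    simp only [List.map_cons, List.map_nil, List.sum_cons, List.sum_nil, add_zero, hf, lam_nil]
    rw [expo_pos U hU]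
    have := (top_T (F := ZMod p) (U.length : ℤ)).mul ((top_dF (F := ZMod p)).pow m)
    convert this using 1
    ring
  refine h1.add_bd (u := U.length + 2 * m - 4) (bd_list_sum _ _ _ ?_) (by omega)
  intro t ht
  rw [List.mem_filter] at ht
  obtain ⟨ht1, ht2⟩ := ht
  have ht3 : ¬ t.2 = [] := by simpa using ht2
  have h2 := terms_pos U hU t ht1
  have h3 := ((tr_twist (m := m) t.2 (terms_mem U hUm t ht1)).1.2).resolve_left ht3
  have h4 := (top_T (F := ZMod p) t.1).mul ((top_dF (F := ZMod p)).pow (lam m t.2))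
  refine h4.bd.mono ?_
  rw [h2]
  have h5 : ((lam m t.2 : ℕ) : ℤ) + 2 ≤ m + (t.2.length : ℤ) := by exact_mod_cast h3
  linarith

theorem top_psi (p : ℕ) [Fact p.Prime] (a s : ℕ) (hs : s ≤ m) :
    Top (psi p m true a s) (tps a m s) := by
  unfold psi
  have h1 := top_SSum (m := m) p (TW true s (m - s) a) (TW_fst true s (m - s) a)
    (TW_mem true s (m - s) a (by omega))
  have h2 := ((top_dF (F := ZMod p)).pow s).mul
    ((top_T (F := ZMod p) (-sgb true * (3 * a * (m - s) : ℕ))).mul h1)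
  convert h2 using 1
  rw [TW_length]
  unfold tps sgb
  rcases Nat.eq_zero_or_pos s with h0 | h0
  · subst h0
    push_cast [Nat.cast_sub hs]
    simp
  · push_cast [Nat.cast_sub hs, Nat.cast_sub h0]
    simp only [if_true]
    ring

theorem invert_psi (p : ℕ) [Fact p.Prime] (a s : ℕ) :
    invert (psi p m false a s) = psi p m true a s := by
  have h1 : -(-sgb false * (3 * a * (m - s) : ℕ)) = -sgb true * (3 * a * (m - s) : ℕ) := by
    unfold sgb
    simp
  have h2 : invert (red p (SSum m [] (TW false s (m - s) a))) =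
      red p (SSum m [] (TW true s (m - s) a)) := by
    rw [red_SSum, red_SSum, ← TW_flip, terms_flip, List.map_map, map_list_sum, List.map_map]
    congr 1
    apply List.map_congr_left
    intro t _
    simp only [Function.comp_apply]
    rw [map_mul, map_pow, invert_dF, invert_T, neg_neg]
  unfold psi
  rw [map_mul, map_mul, map_pow, invert_dF, invert_T, h1, h2]

/-- from `dl ^ n * f` to `f` -/
theorem coeff_pow_dl (n : ℕ) : ∀ (f : ℤ[T;T⁻¹]) (c : ℤ), (dl ^ n * f).coeff c ≠ 0 →
    (∃ c', c - 2 * n ≤ c' ∧ f.coeff c' ≠ 0) ∧ (∃ c', c' ≤ c + 2 * n ∧ f.coeff c' ≠ 0) := by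
  induction n with
  | zero =>
    intro f c h
    rw [pow_zero, one_mul] at h
    exact ⟨⟨c, by simp, h⟩, ⟨c, by simp, h⟩⟩
  | succ n ih =>
    intro f c h
    rw [pow_succ', mul_assoc, coeff_dl_mul] at h
    have h1 : (dl ^ n * f).coeff (c - 2) ≠ 0 ∨ (dl ^ n * f).coeff (c + 2) ≠ 0 := by
      by_contra hcon
      push Not at hcon
      rw [hcon.1, hcon.2] at h
      simp at h
    push_cast
    rcases h1 with h1 | h1
    · obtain ⟨⟨c1, h2, h3⟩, ⟨c2, h4, h5⟩⟩ := ih f _ h1
      exact ⟨⟨c1, by linarith, h3⟩, ⟨c2, by linarith, h5⟩⟩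
    · obtain ⟨⟨c1, h2, h3⟩, ⟨c2, h4, h5⟩⟩ := ih f _ h1
      exact ⟨⟨c1, by linarith, h3⟩, ⟨c2, by linarith, h5⟩⟩

/-- the main estimate -/
theorem twist_main (hm : 2 ≤ m) (p : ℕ) [Fact p.Prime] (k : ℕ) (a : ℤ) (ha : a ≠ 0)
    (hq : 3 * a.natAbs * m ^ 2 + 2 < 2 * p ^ k)
    (B : List (Bool × ℕ)) (hB : ∀ x ∈ B, x.2 + 1 < m) (W : List (Bool × ℕ))
    (hW : ∀ x ∈ W, x.2 + 1 < m)
    (hWB : ∀ (A : ℂ) (N : ℕ), MR A m N W = (MR A m N B) ^ (p ^ k))
    (hexp : expo W = (p ^ k : ℕ) * expo B) (w : ℤ) (hw : w = expo W + a * (m * (m - 1))) :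
    (0 < a → ∃ c, w + 2 * ((m : ℤ) - 1) ≤ c ∧
      ((draw (braidClosure m) W).twisted a).bracket.coeff c ≠ 0) ∧
    (a < 0 → ∃ c, c ≤ w - 2 * ((m : ℤ) - 1) ∧
      ((draw (braidClosure m) W).twisted a).bracket.coeff c ≠ 0) ∧
    ∀ e : ℤ[T;T⁻¹], (e = 1 ∨ e = -1) →
      ((draw (braidClosure m) W).twisted a).bracket ≠ e * T (3 * w) := by
  have hF := modp_formula2 (by omega) p k B hB W hW hWB a
  have hS : ∀ s ∈ SS m, s ≤ m ∧ s % 2 = m % 2 := by
    intro s hs
    unfold SS at hs
    rw [Finset.mem_filter, Finset.mem_range] at hs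
    exact ⟨by omega, hs.2⟩
  have hmS : m ∈ SS m := by
    unfold SS
    rw [Finset.mem_filter, Finset.mem_range]
    exact ⟨by omega, rfl⟩
  have hn1 : 1 ≤ a.natAbs := by omega
  set D := (draw (braidClosure m) W).twisted a with hD
  have hform : ∀ (e : ℤ[T;T⁻¹]) (v : ℤ), red p (dl ^ m * (dl * (e * T v))) =
      red p e * (dF (ZMod p) ^ (m+1) * T v) := by
    intro e v
    rw [map_mul, map_mul, map_mul, map_pow, red_dl, red_T]
    ring
  have hunit : ∀ (e : ℤ[T;T⁻¹]) (v : ℤ), (e = 1 ∨ e = -1) →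
      Top (red p (dl ^ m * (dl * (e * T v)))) (v + 2 * (m + 1)) := by
    intro e v he
    have h1 : Top (dF (ZMod p) ^ (m+1) * T v) (v + 2 * (m + 1)) := by
      have := ((top_dF (F := ZMod p)).pow (m+1)).mul (top_T (F := ZMod p) v)
      convert this using 1
      push_cast
      ring
    rw [hform]
    rcases he with rfl | rfl
    · rw [map_one, one_mul]; exact h1
    · rw [map_neg, map_one, neg_mul, one_mul]
      refine ⟨?_, fun n hn => ?_⟩
      · rw [AddMonoidAlgebra.coeff_neg, Finsupp.neg_apply]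
        exact neg_ne_zero.2 h1.1
      · rw [AddMonoidAlgebra.coeff_neg, Finsupp.neg_apply, h1.2 n hn, neg_zero]
  rcases lt_or_gt_of_ne ha with hneg | hpos
  · -- negative twists
    have hb : decide (0 ≤ a) = false := by simpa using hneg
    have habs : a = -(a.natAbs : ℤ) := by omega
    rw [hb] at hF
    have hF' : invert (red p (dl ^ m * (dl * D.bracket))) =
        ∑ s ∈ SS m, (invert (cc p m B s)) ^ (p ^ k) * psi p m true a.natAbs s := by
      rw [hF, map_sum]
      refine Finset.sum_congr rfl fun s _ => ?_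
      rw [map_mul, map_pow, invert_psi]
    obtain ⟨t, h1, h2, h3⟩ := top_twist (F := ZMod p) hm hn1 hq (-expo B)
      (fun s => invert (cc p m B s)) (by
        intro s n hn
        rw [invert_apply] at hn
        have := cc_res p B hB s _ hn
        omega) (psi p m true a.natAbs) (SS m) hS hmS (fun s hs => top_psi p _ s (hS s hs).1) (by
        show invert (cc p m B m) = _
        rw [cc_top p B hB, invert_T])
    rw [← hF'] at h1
    have hw' : -w = ((p ^ k : ℕ) : ℤ) * -expo B + (a.natAbs : ℤ) * (m * (m - 1)) := by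
      rw [hw, hexp, habs]
      push_cast
      simp
      ring
    push_cast at hw' h2 h3
    rw [← hw'] at h2 h3
    refine ⟨fun h => absurd h (by omega), fun _ => ?_, fun e he heq => ?_⟩
    · have h4 := h1.1
      rw [invert_apply] at h4
      have h5 := red_coeff p _ _ h4
      rw [← mul_assoc, ← pow_succ] at h5
      obtain ⟨_, ⟨c', h6, h7⟩⟩ := coeff_pow_dl (m+1) _ _ h5
      refine ⟨c', ?_, h7⟩
      push_cast at h6
      linarith
    · rw [heq] at h1
      have h4 : invert (red p (dl ^ m * (dl * (e * T (3 * w))))) = red p (dl ^ m * (dl * (e * T (3 * -w)))) := by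
        have h5 : invert (red p e) = red p e := by
          rcases he with rfl | rfl
          · rw [map_one, map_one]
          · rw [map_neg, map_one, map_neg, map_one]
        have h6 : -(3 * w) = 3 * -w := by ring
        rw [hform, hform, map_mul, map_mul, map_pow, invert_dF, invert_T, h5, h6]
      rw [h4] at h1
      exact h3 (h1.unique (hunit e _ he))
  · -- positive twists
    have hb : decide (0 ≤ a) = true := by simpa using hpos.le
    have habs : a = (a.natAbs : ℤ) := by omega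
    rw [hb] at hF
    obtain ⟨t, h1, h2, h3⟩ := top_twist (F := ZMod p) hm hn1 hq (expo B)
      (cc p m B) (cc_res p B hB) (psi p m true a.natAbs) (SS m) hS hmS
      (fun s hs => top_psi p _ s (hS s hs).1) (cc_top p B hB)
    rw [← hF] at h1
    have hw' : w = ((p ^ k : ℕ) : ℤ) * expo B + (a.natAbs : ℤ) * (m * (m - 1)) := by
      rw [hw, hexp, ← habs]
    push_cast at hw' h2 h3
    rw [← hw'] at h2 h3
    refine ⟨fun _ => ?_, fun h => absurd h (by omega), fun e he heq => ?_⟩
    · have h5 := red_coeff p _ _ h1.1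
      rw [← mul_assoc, ← pow_succ] at h5
      obtain ⟨⟨c', h6, h7⟩, _⟩ := coeff_pow_dl (m+1) _ _ h5
      refine ⟨c', ?_, h7⟩
      push_cast at h6
      linarith
    · rw [heq] at h1
      exact h3 (h1.unique (hunit e _ he))

end psi

end Pool.Agent.TH561
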